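import Mathlib

/-!
Determinant of a polynomial in a complex matrix: the product of the values at the eigenvalues.
-/

set_option autoImplicit false

open Polynomial

namespace Pool.LU

theorem det_aeval_complex {n : Type*} [Fintype n] [DecidableEq n] (A : Matrix n n ℂ) (g : ℂ[X]) :
    (aeval A g).det = (A.charpoly.roots.map fun α => g.eval α).prod := by
  have hs : ∀ f : ℂ[X], f.Splits := fun f => IsAlgClosed.splits f
  have e4 : Multiset.card A.charpoly.roots = Fintype.card n := by
    rw [← (hs A.charpoly).natDegree_eq_card_roots, A.charpoly_natDegree_eq_dim]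
  have h1 : ∀ ζ : ℂ, (aeval A (X - C ζ)).det = (A.charpoly.roots.map fun α => α - ζ).prod := by
    intro ζ
    have e1 : A.charpoly.eval ζ = (A.charpoly.roots.map fun α => ζ - α).prod := by
      have := (hs A.charpoly).eq_prod_roots
      rw [A.charpoly_monic.leadingCoeff, C_1, one_mul] at this
      conv_lhs => rw [this]
      rw [eval_multiset_prod, Multiset.map_map]
      simp
    have e2 : (aeval A (X - C ζ)) = - (Matrix.scalar n ζ - A) := by
      rw [map_sub, aeval_X, aeval_C, neg_sub]
      rfl
    have e3 : A.charpoly.eval ζ = (Matrix.scalar n ζ - A).det := by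
      rw [Matrix.eval_charpoly]
    rw [e2, Matrix.det_neg, ← e3, e1, ← e4]
    have e5 : (A.charpoly.roots.map fun α => α - ζ) =
        A.charpoly.roots.map fun α => (-1) * (ζ - α) := by
      congr 1; ext α; ring
    rw [e5, Multiset.prod_map_mul, Multiset.map_const', Multiset.prod_replicate]
  have h2 := (hs g).eq_prod_roots
  let f : ℂ[X] →* ℂ := (Matrix.detMonoidHom : Matrix n n ℂ →* ℂ).comp
    ((aeval A : ℂ[X] →ₐ[ℂ] Matrix n n ℂ) : ℂ[X] →* Matrix n n ℂ)
  have hf : ∀ p : ℂ[X], f p = (aeval A p).det := fun p => rfl
  have h3 : (aeval A g).det = g.leadingCoeff ^ Fintype.card n *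
      (g.roots.map fun ζ => (A.charpoly.roots.map fun α => α - ζ).prod).prod := by
    rw [← hf]
    conv_lhs => rw [h2]
    rw [map_mul, map_multiset_prod, Multiset.map_map]
    congr 1
    · rw [hf, aeval_C]
      change (Matrix.scalar n g.leadingCoeff).det = _
      simp
    · congr 1
      refine Multiset.map_congr rfl fun ζ _ => ?_
      rw [Function.comp_apply, hf, h1]
  have h4 : ∀ α : ℂ, g.eval α = g.leadingCoeff * (g.roots.map fun ζ => α - ζ).prod := by
    intro α
    conv_lhs => rw [h2]
    rw [eval_mul, eval_C, eval_multiset_prod, Multiset.map_map]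
    simp
  rw [h3]
  have h5 : (A.charpoly.roots.map fun α => g.eval α) =
      A.charpoly.roots.map fun α => g.leadingCoeff * (g.roots.map fun ζ => α - ζ).prod :=
    Multiset.map_congr rfl fun α _ => h4 α
  rw [h5, Multiset.prod_map_mul, Multiset.map_const', Multiset.prod_replicate, e4,
    Multiset.prod_map_prod_map]

end Pool.LU
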