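import Pool.Agent.H39.LU.TGb
import Pool.Agent.H81.LU.YStmts

/-!
Project LU, part Y, module TG: growth of the torsion and boundedness of the Betti numbers of the
cyclic quotients of a complex over `ℤ[X]`.
-/

set_option autoImplicit false

open Polynomial Pool.H3.L2 Filter

noncomputable section

namespace Pool.LU

theorem ev_log (a b c : ℝ) (g : ℕ) (hab : a < b) :
    ∀ᶠ m : ℕ in atTop, (g : ℝ) * Real.log m - c ≤ (b - a) * (m : ℝ) := by
  have h1 : (fun x : ℝ => (g : ℝ) * Real.log x - c) =o[atTop] (id : ℝ → ℝ) :=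
    (Real.isLittleO_log_id_atTop.const_mul_left _).sub
      (Asymptotics.isLittleO_const_id_atTop c)
  have h2 := (h1.bound (sub_pos.2 hab)).and (eventually_ge_atTop (0 : ℝ))
  have h3 := tendsto_natCast_atTop_atTop (R := ℝ) |>.eventually h2
  filter_upwards [h3] with m hm
  obtain ⟨h4, h5⟩ := hm
  rw [id, Real.norm_eq_abs, Real.norm_eq_abs, abs_of_nonneg h5] at h4
  exact (le_abs_self _).trans h4

/-- **TG.** -/
theorem tg : TGStmt := by
  intro C h hF hδ
  refine ⟨betti_bdd h, ?_⟩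
  intro a ha M
  obtain ⟨c, hc, g, hg⟩ := tors_growth C h
  set δ := Nat.card ((at0 C).Hk 2) with hδ'
  have hδ0 : (0 : ℝ) < δ := by
    have : (1 : ℝ) < δ := by exact_mod_cast hδ
    linarith
  obtain ⟨N, hN⟩ := eventually_atTop.1 (ev_log a (Real.log δ) (Real.log c) g ha)
  obtain ⟨m, hm, hm'⟩ := hg (max (max M N) 1)
  have hm1 : M ≤ m := (le_max_left _ _).trans ((le_max_left _ _).trans hm)
  have hm2 : N ≤ m := (le_max_right _ _).trans ((le_max_left _ _).trans hm)
  have hm3 : 1 ≤ m := (le_max_right _ _).trans hm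
  have hne : NeZero m := ⟨by omega⟩
  refine ⟨m, hne, hm1, ?_⟩
  have h1 := hm' hne
  have h2 := hN m hm2
  have h3 : (0 : ℝ) < m := by exact_mod_cast hm3
  have h4 : (0 : ℝ) < ((cyc C m).torsOrd 2 : ℝ) := by
    exact_mod_cast BCx.torsOrd_pos (cyc C m) 2
  have h5 : Real.log (c * (δ : ℝ) ^ m) ≤ Real.log ((m : ℝ) ^ g * ((cyc C m).torsOrd 2 : ℝ)) :=
    Real.log_le_log (by positivity) h1
  rw [Real.log_mul hc.ne' (by positivity), Real.log_pow, Real.log_mul (by positivity) h4.ne',
    Real.log_pow] at h5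
  linarith

end Pool.LU
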