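import Mathlib

/-!
Growth of products of geometric sums at nonzero complex numbers along an arithmetic progression.
-/

set_option autoImplicit false

open Filter Topology

namespace Pool.LU

/-- The geometric sum. -/
noncomputable def gs (α : ℂ) (m : ℕ) : ℂ := ∑ i ∈ Finset.range m, α ^ i

theorem gs_mul (α : ℂ) (m : ℕ) : gs α m * (α - 1) = α ^ m - 1 := geom_sum_mul α m

/-- In every window of `K + 1` consecutive terms of the progression `1 + Q j` at most one term is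
bad. -/
theorem window (α : ℂ) (h0 : α ≠ 0) (Q : ℕ) (hQ : 0 < Q)
    (hα : (∃ q : ℕ, 0 < q ∧ α ^ q = 1) → α ^ Q = 1) (K : ℕ) :
    ∃ c : ℝ, 0 < c ∧ ∃ M : ℕ, ∀ j j' : ℕ, M ≤ j → j < j' → j' ≤ j + K →
      c * ‖α‖ ^ (1 + Q * j) ≤ ‖gs α (1 + Q * j)‖ ∨ c * ‖α‖ ^ (1 + Q * j') ≤ ‖gs α (1 + Q * j')‖ := by
  by_cases h1 : α = 1
  · refine ⟨1, one_pos, 0, fun j j' _ _ _ => Or.inl ?_⟩
    subst h1
    simp only [gs, one_pow, norm_one, mul_one, Finset.sum_const, Finset.card_range, nsmul_eq_mul]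
    rw [Complex.norm_natCast]
    have : (1 : ℝ) ≤ ((1 + Q * j : ℕ) : ℝ) := by exact_mod_cast (by omega : 1 ≤ 1 + Q * j)
    simpa using this
  have h1' : α - 1 ≠ 0 := sub_ne_zero.2 h1
  have hn1 : 0 < ‖α - 1‖ := norm_pos_iff.2 h1'
  have hgs : ∀ m, ‖gs α m‖ = ‖α ^ m - 1‖ / ‖α - 1‖ := by
    intro m
    rw [eq_div_iff hn1.ne', ← norm_mul, gs_mul]
  rcases lt_trichotomy ‖α‖ 1 with hlt | heq | hgt
  · -- norm < 1
    have ht : Tendsto (fun m : ℕ => ‖α‖ ^ m) atTop (𝓝 0) :=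
      tendsto_pow_atTop_nhds_zero_of_lt_one (norm_nonneg _) hlt
    obtain ⟨M, hM⟩ := eventually_atTop.1 (ht.eventually (gt_mem_nhds (show (0:ℝ) < 1/2 by norm_num)))
    refine ⟨1 / (2 * ‖α - 1‖), by positivity, M, fun j j' hj _ _ => Or.inl ?_⟩
    have hm : M ≤ 1 + Q * j := by nlinarith
    have h2 := hM _ hm
    rw [hgs]
    have h3 : (1:ℝ)/2 ≤ ‖α ^ (1 + Q * j) - 1‖ := by
      have := norm_sub_norm_le (1 : ℂ) (α ^ (1 + Q * j))
      rw [norm_one, norm_pow, norm_sub_rev] at this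
      linarith
    have h4 : ‖α‖ ^ (1 + Q * j) ≤ 1 := pow_le_one₀ (norm_nonneg _) hlt.le
    calc 1 / (2 * ‖α - 1‖) * ‖α‖ ^ (1 + Q * j) ≤ 1 / (2 * ‖α - 1‖) * 1 := by gcongr
      _ = (1/2) / ‖α - 1‖ := by field_simp
      _ ≤ _ := by gcongr
  · -- norm = 1
    by_cases hr : ∃ q : ℕ, 0 < q ∧ α ^ q = 1
    · -- root of unity
      have hQ1 := hα hr
      refine ⟨1, one_pos, 0, fun j j' _ _ _ => Or.inl ?_⟩
      have : α ^ (1 + Q * j) = α := by rw [pow_add, pow_mul, hQ1, one_pow, mul_one, pow_one]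
      rw [hgs, this, div_self hn1.ne', heq, one_pow, mul_one]
    · push Not at hr
      -- minimum distance
      have hpos : ∀ i ∈ Finset.Icc 1 (K + 1), 0 < ‖α ^ (Q * i) - 1‖ := by
        intro i hi
        rw [Finset.mem_Icc] at hi
        rw [norm_pos_iff]
        exact sub_ne_zero.2 (hr _ (Nat.mul_pos hQ hi.1))
      have hne : (Finset.Icc 1 (K + 1)).Nonempty := ⟨1, by simp⟩
      obtain ⟨i0, hi0, hmin⟩ := Finset.exists_min_image _ (fun i => ‖α ^ (Q * i) - 1‖) hne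
      set η := ‖α ^ (Q * i0) - 1‖ with hη
      have hηpos : 0 < η := hpos i0 hi0
      refine ⟨η / 2 / ‖α - 1‖, by positivity, 0, fun j j' _ hjj hjK => ?_⟩
      by_contra hcon
      push Not at hcon
      obtain ⟨h2, h3⟩ := hcon
      rw [hgs, heq, one_pow, mul_one, div_lt_div_iff_of_pos_right hn1] at h2 h3
      have h4 : η ≤ ‖α ^ (Q * (j' - j)) - 1‖ := hmin (j' - j) (by
        rw [Finset.mem_Icc]; omega)
      have h5 : α ^ (1 + Q * j') - α ^ (1 + Q * j) =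
          α ^ (1 + Q * j) * (α ^ (Q * (j' - j)) - 1) := by
        have : 1 + Q * j' = (1 + Q * j) + Q * (j' - j) := by
          have : Q * j' = Q * j + Q * (j' - j) := by rw [← Nat.mul_add]; congr 1; omega
          omega
        rw [this, pow_add]; ring
      have h6 : ‖α ^ (1 + Q * j') - α ^ (1 + Q * j)‖ = ‖α ^ (Q * (j' - j)) - 1‖ := by
        rw [h5, norm_mul, norm_pow, heq, one_pow, one_mul]
      have h7 : ‖α ^ (1 + Q * j') - α ^ (1 + Q * j)‖ ≤
          ‖α ^ (1 + Q * j') - 1‖ + ‖α ^ (1 + Q * j) - 1‖ := by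
        have : α ^ (1 + Q * j') - α ^ (1 + Q * j) =
          (α ^ (1 + Q * j') - 1) - (α ^ (1 + Q * j) - 1) := by ring
        rw [this]
        exact norm_sub_le _ _
      linarith
  · -- norm > 1
    have ht : Tendsto (fun m : ℕ => ‖α‖ ^ m) atTop atTop := tendsto_pow_atTop_atTop_of_one_lt hgt
    obtain ⟨M, hM⟩ := eventually_atTop.1 (ht.eventually (eventually_ge_atTop 2))
    refine ⟨1 / (2 * ‖α - 1‖), by positivity, M, fun j j' hj _ _ => Or.inl ?_⟩
    have hm : M ≤ 1 + Q * j := by nlinarith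
    have h2 := hM _ hm
    rw [hgs]
    have h3 : ‖α‖ ^ (1 + Q * j) / 2 ≤ ‖α ^ (1 + Q * j) - 1‖ := by
      have := norm_sub_norm_le (α ^ (1 + Q * j)) (1 : ℂ)
      rw [norm_one, norm_pow] at this
      linarith
    calc 1 / (2 * ‖α - 1‖) * ‖α‖ ^ (1 + Q * j) = (‖α‖ ^ (1 + Q * j) / 2) / ‖α - 1‖ := by
          field_simp
      _ ≤ _ := by gcongr

/-- Products of geometric sums grow at least like the products of the absolute values, for
infinitely many members of a suitable arithmetic progression. -/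
theorem prod_gs {ι : Type*} [Fintype ι] (α : ι → ℂ) (h0 : ∀ k, α k ≠ 0) :
    ∃ c : ℝ, 0 < c ∧ ∀ B : ℕ, ∃ m : ℕ, B ≤ m ∧ (∀ k, gs (α k) m ≠ 0) ∧
      c * ∏ k, ‖α k‖ ^ m ≤ ∏ k, ‖gs (α k) m‖ := by
  classical
  -- the exponent killing the roots of unity
  have hq : ∀ k, ∃ q : ℕ, 0 < q ∧ ((∃ q : ℕ, 0 < q ∧ α k ^ q = 1) → α k ^ q = 1) := by
    intro k
    by_cases h : ∃ q : ℕ, 0 < q ∧ α k ^ q = 1
    · obtain ⟨q, hq, hq'⟩ := h
      exact ⟨q, hq, fun _ => hq'⟩
    · exact ⟨1, one_pos, fun h' => absurd h' h⟩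
  choose q hq1 hq2 using hq
  set Q := ∏ k, q k with hQdef
  have hQ : 0 < Q := Finset.prod_pos fun k _ => hq1 k
  have hQ2 : ∀ k, (∃ q : ℕ, 0 < q ∧ α k ^ q = 1) → α k ^ Q = 1 := by
    intro k hk
    obtain ⟨r, hr⟩ := Finset.dvd_prod_of_mem q (Finset.mem_univ k)
    rw [hQdef, hr, pow_mul, hq2 k hk, one_pow]
  set K := Fintype.card ι with hK
  choose c hc M hM using fun k => window (α k) (h0 k) Q hQ (hQ2 k) K
  set M' := ∑ k, M k with hM'
  have hMle : ∀ k, M k ≤ M' := fun k => Finset.single_le_sum (fun _ _ => Nat.zero_le _)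
    (Finset.mem_univ k)
  refine ⟨∏ k, c k, Finset.prod_pos fun k _ => hc k, fun B => ?_⟩
  set J := max M' B with hJ
  -- a good index in the window
  have hgood : ∃ j, J ≤ j ∧ ∀ k, c k * ‖α k‖ ^ (1 + Q * j) ≤ ‖gs (α k) (1 + Q * j)‖ := by
    by_contra hcon
    push Not at hcon
    have : ∀ i : Fin (K + 1), ∃ k, ‖gs (α k) (1 + Q * (J + i))‖ <
        c k * ‖α k‖ ^ (1 + Q * (J + i)) := fun i => hcon (J + i) (by omega)
    choose f hf using this
    obtain ⟨i, i', hii, hfi⟩ := Fintype.exists_ne_map_eq_of_card_lt f (by simp [hK])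
    wlog hlt : i < i' generalizing i i'
    · exact this i' i hii.symm hfi.symm (lt_of_le_of_ne (not_lt.1 hlt) hii.symm)
    have h1 := hf i
    have h2 := hf i'
    rw [← hfi] at h2
    rcases hM (f i) (J + i) (J + i') ((hMle _).trans (by omega)) (by
      have : (i : ℕ) < i' := hlt
      omega) (by have := i'.2; omega) with h | h
    · linarith
    · linarith
  obtain ⟨j, hj, hj'⟩ := hgood
  refine ⟨1 + Q * j, ?_, ?_, ?_⟩
  · have : j ≤ Q * j := Nat.le_mul_of_pos_left _ hQ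
    omega
  · intro k hk
    have := hj' k
    rw [hk, norm_zero] at this
    have h2 : 0 < c k * ‖α k‖ ^ (1 + Q * j) :=
      mul_pos (hc k) (pow_pos (norm_pos_iff.2 (h0 k)) _)
    linarith
  · rw [← Finset.prod_mul_distrib]
    exact Finset.prod_le_prod (fun k _ => (mul_pos (hc k) (pow_pos (norm_pos_iff.2 (h0 k)) _)).le)
      fun k _ => hj' k

end Pool.LU
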