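import Pool.Agent.H39.LU.Quot
import Pool.Agent.H39.LU.DetAeval

/-!
The order of `T / g T` and the determinant of `g (X)` on `ℚ ⊗ T`.
-/

set_option autoImplicit false

open Polynomial TensorProduct

namespace Pool.LU

variable {T : Type*} [AddCommGroup T] [Module ℤ[X] T]

/-- The rational vector space. -/
abbrev EE (T : Type*) [AddCommGroup T] : Type _ := ℚ ⊗[ℤ] T

/-- The canonical map. -/
noncomputable def io : T →+ EE T := (TensorProduct.mk ℤ ℚ T 1).toAddMonoidHom

omit [Module ℤ[X] T] in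
theorem io_apply (t : T) : io t = (1 : ℚ) ⊗ₜ[ℤ] t := rfl

omit [Module ℤ[X] T] in
theorem io_eq_zero {t : T} : io t = 0 ↔ ∃ n : ℤ, n ≠ 0 ∧ n • t = 0 := by
  have : IsLocalizedModule (nonZeroDivisors ℤ) (TensorProduct.mk ℤ ℚ T 1) :=
    (isLocalizedModule_iff_isBaseChange (nonZeroDivisors ℤ) ℚ _).2 (TensorProduct.isBaseChange ℤ T ℚ)
  have h := IsLocalizedModule.eq_zero_iff (nonZeroDivisors ℤ) (TensorProduct.mk ℤ ℚ T 1) (m := t)
  constructor
  · intro h1
    obtain ⟨c, hc⟩ := h.1 h1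
    exact ⟨c, nonZeroDivisors.ne_zero c.2, hc⟩
  · rintro ⟨n, hn, h1⟩
    exact h.2 ⟨⟨n, mem_nonZeroDivisors_of_ne_zero hn⟩, h1⟩

/-- Multiplication by `X` on the rational vector space. -/
noncomputable def UU (T : Type*) [AddCommGroup T] [Module ℤ[X] T] : EE T →ₗ[ℚ] EE T :=
  LinearMap.baseChange ℚ (mp X : T →+ T).toIntLinearMap

theorem UU_io (t : T) : UU T (io t) = io ((X : ℤ[X]) • t) := by
  rw [io_apply, UU, LinearMap.baseChange_tmul]
  rfl

theorem aeval_io (p : ℤ[X]) (t : T) : (aeval (UU T) p) (io t) = io (p • t) := by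
  induction p using Polynomial.induction_on' generalizing t with
  | add p q hp hq => rw [map_add, LinearMap.add_apply, hp, hq, add_smul, map_add]
  | monomial n a =>
    have h1 : ∀ (n : ℕ) (t : T), ((UU T) ^ n) (io t) = io ((X : ℤ[X]) ^ n • t) := by
      intro n
      induction n with
      | zero => intro t; simp
      | succ n ih => intro t; rw [pow_succ, Module.End.mul_apply, UU_io, ih, smul_smul, ← pow_succ]
    rw [aeval_monomial, Module.End.mul_apply, h1, ← C_mul_X_pow_eq_monomial, mul_smul]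
    have h2 : (C a : ℤ[X]) • ((X : ℤ[X]) ^ n • t) = a • ((X : ℤ[X]) ^ n • t) := by
      rw [show (C a : ℤ[X]) = a • (1 : ℤ[X]) by rw [zsmul_eq_mul, mul_one]; rfl, smul_assoc,
        one_smul]
    rw [h2, map_zsmul]
    rw [Module.algebraMap_end_apply]

namespace Filt

variable (Φ : Filt T)

theorem mul_mem (t : T) : ∃ n : ℕ, n ≠ 0 ∧ n • t ∈ Φ.F 0 := by
  obtain ⟨j, hj⟩ := Φ.ex t
  have h1 : (Φ.F 0).relIndex (Φ.F j) ≠ 0 := by
    rw [Φ.rel_zero]; exact pow_ne_zero _ Φ.A_ne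
  obtain ⟨n, hn, -, hn'⟩ := AddSubgroup.exists_nsmul_mem_of_relIndex_ne_zero h1 hj
  exact ⟨n, by omega, hn'.1⟩

theorem span_top (j : ℕ) : Submodule.span ℚ (((Φ.F j).map (io : T →+ EE T) : AddSubgroup (EE T)) : Set (EE T)) = ⊤ := by
  have h0 : Submodule.span ℚ (((Φ.F 0).map (io : T →+ EE T) : AddSubgroup (EE T)) : Set (EE T)) = ⊤ := by
    rw [eq_top_iff]
    intro e _
    induction e using TensorProduct.induction_on with
    | zero => exact Submodule.zero_mem _
    | tmul q t =>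
      obtain ⟨n, hn, hn'⟩ := Φ.mul_mem t
      have h1 : q ⊗ₜ[ℤ] t = (q * (n : ℚ)⁻¹) • io (n • t) := by
        rw [map_nsmul, io_apply, ← Nat.cast_smul_eq_nsmul ℚ, smul_smul, mul_assoc,
          inv_mul_cancel₀ (by exact_mod_cast hn), mul_one, TensorProduct.smul_tmul', smul_eq_mul,
          mul_one]
      rw [h1]
      exact Submodule.smul_mem _ _ (Submodule.subset_span ⟨_, hn', rfl⟩)
    | add x y hx hy => exact Submodule.add_mem _ (hx trivial) (hy trivial)
  exact top_le_iff.1 (h0 ▸ Submodule.span_mono (AddSubgroup.map_mono (Φ.mono (Nat.zero_le j))))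

include Φ in
theorem finiteDim : FiniteDimensional ℚ (EE T) := by
  classical
  obtain ⟨S, hS⟩ := Φ.fg 0
  refine ⟨⟨S.image io, ?_⟩⟩
  rw [eq_top_iff, ← Φ.span_top 0, Submodule.span_le]
  rintro _ ⟨t, ht, rfl⟩
  rw [← hS] at ht
  have : AddSubgroup.closure (S : Set T) ≤
      (Submodule.span ℚ ((S.image io : Finset (EE T)) : Set (EE T))).toAddSubgroup.comap io := by
    rw [AddSubgroup.closure_le]
    intro x hx
    exact Submodule.subset_span (by simpa using ⟨x, hx, rfl⟩)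
  exact this ht

theorem fg_map (j : ℕ) : ((Φ.F j).map (io : T →+ EE T)).FG := by
  obtain ⟨S, hS⟩ := Φ.fg j
  classical
  refine ⟨S.image io, ?_⟩
  rw [← hS, AddMonoidHom.map_closure, Finset.coe_image]

theorem finite_inf_ker (j : ℕ) : Finite ↥(Φ.F j ⊓ (io : T →+ EE T).ker) := by
  have h1 : AddGroup.FG (Φ.F j) := (AddGroup.fg_iff_addSubgroup_fg _).2 (Φ.fg j)
  have h2 : Module.Finite ℤ (Φ.F j) := Module.Finite.iff_addGroup_fg.2 h1
  have h3 : IsNoetherian ℤ (Φ.F j) := inferInstance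
  let N : AddSubgroup (Φ.F j) := (Φ.F j ⊓ (io : T →+ EE T).ker).addSubgroupOf (Φ.F j)
  have h4 : AddGroup.FG N := by
    have h5 : Module.Finite ℤ N.toIntSubmodule := inferInstance
    exact Module.Finite.iff_addGroup_fg.1 h5
  have h6 : IsAddTorsion N := by
    rintro ⟨⟨t, ht⟩, ht'⟩
    rw [AddSubgroup.mem_addSubgroupOf] at ht'
    obtain ⟨n, hn, hn'⟩ := io_eq_zero.1 (show io t = 0 from ht'.2)
    rw [isOfFinAddOrder_iff_zsmul_eq_zero]
    refine ⟨n, hn, ?_⟩
    ext
    exact hn'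
  have h7 : Finite N := AddCommGroup.finite_of_fg_isAddTorsion N h6
  exact Finite.of_equiv N (AddSubgroup.addSubgroupOfEquivOfLe inf_le_left).toEquiv

/-- The key formula. -/
theorem key (g : ℤ[X]) (hg : g.Monic) {k : ℕ} (hk : g.natDegree = k + 1)
    (hdet : LinearMap.det (aeval (UU T) g) ≠ 0) :
    ((mp g : T →+ T).range.index : ℚ) *
      Nat.card ↥((Φ.F 0 ⊓ (io : T →+ EE T).ker).map (mp g)) =
    |LinearMap.det (aeval (UU T) g)| * (Φ.A : ℚ) ^ (k + 1) *
      Nat.card ↥(Φ.F 0 ⊓ (io : T →+ EE T).ker) := by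
  have := Φ.finiteDim
  set f := aeval (UU T) g with hf
  have hle : (Φ.F 0).map (mp g) ≤ Φ.F (k + 1) := by
    rw [← Φ.inf_range g hg hk]; exact inf_le_right
  have h1 := idx_formula (io : T →+ EE T) _ _ hle
  have h2 := idx_formula (io : T →+ EE T) _ _ (Φ.mono (Nat.zero_le (k + 1)))
  rw [Φ.rel_zero] at h2
  have hmap : ((Φ.F 0).map (mp g)).map (io : T →+ EE T) =
      ((Φ.F 0).map (io : T →+ EE T)).map f.toAddMonoidHom := by
    rw [AddSubgroup.map_map, AddSubgroup.map_map]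
    congr 1
    ext t
    exact (aeval_io g t).symm
  have h3 := relIndex_image ((Φ.F 0).map (io : T →+ EE T)) ((Φ.F (k + 1)).map (io : T →+ EE T))
    (AddSubgroup.map_mono (Φ.mono (Nat.zero_le _))) (Φ.fg_map 0) (Φ.fg_map _) (Φ.span_top 0) f hdet
    (by rw [← hmap]; exact AddSubgroup.map_mono hle)
  have hinf : (Φ.F 0).map (mp g) ⊓ (io : T →+ EE T).ker =
      (Φ.F 0 ⊓ (io : T →+ EE T).ker).map (mp g) := by
    apply le_antisymm
    · rintro _ ⟨⟨t, ht, rfl⟩, h⟩
      refine ⟨t, ⟨ht, ?_⟩, rfl⟩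
      have h4 : f (io t) = 0 := by
        rw [hf, aeval_io]; exact h
      have h5 : Function.Injective f := by
        have := (LinearMap.isUnit_iff_isUnit_det f).2 (isUnit_iff_ne_zero.2 hdet)
        exact ((Module.End.isUnit_iff f).1 this).1
      exact h5 (by rw [h4, map_zero])
    · rintro _ ⟨t, ⟨ht, ht'⟩, rfl⟩
      refine ⟨⟨t, ht, rfl⟩, ?_⟩
      change io (g • t) = 0
      rw [← aeval_io, show io t = 0 from ht', map_zero]
  rw [← Φ.index_range g hg hk, hinf, hmap] at h1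
  have h1' := congrArg (fun n : ℕ => (n : ℚ)) h1
  have h2' := congrArg (fun n : ℕ => (n : ℚ)) h2
  push_cast at h1' h2'
  rw [h1', h3]
  have : (((Φ.F 0).map (io : T →+ EE T)).relIndex ((Φ.F (k + 1)).map (io : T →+ EE T)) : ℚ) *
      |LinearMap.det f| * (Nat.card ↥(Φ.F (k + 1) ⊓ (io : T →+ EE T).ker) : ℚ) =
      |LinearMap.det f| * ((((Φ.F 0).map (io : T →+ EE T)).relIndex
        ((Φ.F (k + 1)).map (io : T →+ EE T)) : ℚ) *
        (Nat.card ↥(Φ.F (k + 1) ⊓ (io : T →+ EE T).ker) : ℚ)) := by ring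
  rw [this, ← h2']
  ring

theorem lower (g : ℤ[X]) (hg : g.Monic) {k : ℕ} (hk : g.natDegree = k + 1)
    (hdet : LinearMap.det (aeval (UU T) g) ≠ 0) :
    |LinearMap.det (aeval (UU T) g)| * (Φ.A : ℚ) ^ (k + 1) ≤ ((mp g : T →+ T).range.index : ℚ) := by
  have h1 := Φ.key g hg hk hdet
  have hfin := Φ.finite_inf_ker 0
  have h2 : 0 < Nat.card ↥(Φ.F 0 ⊓ (io : T →+ EE T).ker) := Nat.card_pos
  have h3 : Nat.card ↥((Φ.F 0 ⊓ (io : T →+ EE T).ker).map (mp g)) ≤
      Nat.card ↥(Φ.F 0 ⊓ (io : T →+ EE T).ker) := by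
    exact Nat.le_of_dvd h2 (AddSubgroup.card_map_dvd (H := Φ.F 0 ⊓ (io : T →+ EE T).ker) (mp g))
  have h2' : (0 : ℚ) < Nat.card ↥(Φ.F 0 ⊓ (io : T →+ EE T).ker) := by exact_mod_cast h2
  have h3' : (Nat.card ↥((Φ.F 0 ⊓ (io : T →+ EE T).ker).map (mp g)) : ℚ) ≤
      Nat.card ↥(Φ.F 0 ⊓ (io : T →+ EE T).ker) := by exact_mod_cast h3
  by_contra hcon
  push Not at hcon
  have h4 : ((mp g : T →+ T).range.index : ℚ) *
      Nat.card ↥((Φ.F 0 ⊓ (io : T →+ EE T).ker).map (mp g)) ≤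
      ((mp g : T →+ T).range.index : ℚ) * Nat.card ↥(Φ.F 0 ⊓ (io : T →+ EE T).ker) := by
    gcongr
  have h5 : ((mp g : T →+ T).range.index : ℚ) * Nat.card ↥(Φ.F 0 ⊓ (io : T →+ EE T).ker) <
      |LinearMap.det (aeval (UU T) g)| * (Φ.A : ℚ) ^ (k + 1) *
      Nat.card ↥(Φ.F 0 ⊓ (io : T →+ EE T).ker) := by
    exact mul_lt_mul_of_pos_right hcon h2'
  linarith

theorem exact (hinj : ∀ t : T, (X : ℤ[X]) • t = 0 → t = 0)
    (hdet : LinearMap.det (UU T) ≠ 0) :
    ((mp X : T →+ T).range.index : ℚ) = |LinearMap.det (UU T)| * (Φ.A : ℚ) := by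
  have e : aeval (UU T) (X : ℤ[X]) = UU T := aeval_X _
  have h1 := Φ.key X monic_X (k := 0) natDegree_X (by rw [e]; exact hdet)
  rw [e, Nat.zero_add, pow_one] at h1
  have hfin := Φ.finite_inf_ker 0
  have h2 : 0 < Nat.card ↥(Φ.F 0 ⊓ (io : T →+ EE T).ker) := Nat.card_pos
  have h2' : (0 : ℚ) < Nat.card ↥(Φ.F 0 ⊓ (io : T →+ EE T).ker) := by exact_mod_cast h2
  have hinj' : Function.Injective (mp X : T →+ T) := by
    rw [injective_iff_map_eq_zero]
    exact hinj
  have h3 : Nat.card ↥((Φ.F 0 ⊓ (io : T →+ EE T).ker).map (mp X)) =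
      Nat.card ↥(Φ.F 0 ⊓ (io : T →+ EE T).ker) :=
    (Nat.card_congr (AddSubgroup.equivMapOfInjective _ _ hinj').toEquiv).symm
  rw [h3] at h1
  exact mul_right_cancel₀ h2'.ne' h1

end Filt

theorem det_UU_ne [FiniteDimensional ℚ (EE T)] (hfin : (mp X : T →+ T).range.index ≠ 0) :
    LinearMap.det (UU T) ≠ 0 := by
  have hs : Function.Surjective (UU T) := by
    rw [← LinearMap.range_eq_top, eq_top_iff]
    intro e _
    induction e using TensorProduct.induction_on with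
    | zero => exact Submodule.zero_mem _
    | tmul q t =>
      have h1 : (mp X : T →+ T).range.index • t ∈ (mp X : T →+ T).range :=
        AddSubgroup.nsmul_index_mem _ t
      obtain ⟨t', ht'⟩ := h1
      set n := (mp X : T →+ T).range.index
      have h1 : q ⊗ₜ[ℤ] t = (q * (n : ℚ)⁻¹) • io (n • t) := by
        rw [map_nsmul, io_apply, ← Nat.cast_smul_eq_nsmul ℚ, smul_smul, mul_assoc,
          inv_mul_cancel₀ (by exact_mod_cast hfin), mul_one, TensorProduct.smul_tmul', smul_eq_mul,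
          mul_one]
      rw [h1, ← ht', mp_apply, ← UU_io]
      exact Submodule.smul_mem _ _ ⟨_, rfl⟩
    | add x y hx hy => exact Submodule.add_mem _ (hx trivial) (hy trivial)
  have h2 : IsUnit (UU T) := (Module.End.isUnit_iff _).2
    ⟨LinearMap.injective_iff_surjective.2 hs, hs⟩
  exact ((LinearMap.isUnit_iff_isUnit_det _).1 h2).ne_zero

/-- The determinant of `g (U)` is the product of `g` at the eigenvalues. -/
theorem exists_eig [FiniteDimensional ℚ (EE T)] :
    ∃ (n : ℕ) (α : Fin n → ℂ), ∀ g : ℤ[X],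
      ((LinearMap.det (aeval (UU T) g) : ℚ) : ℂ) = ∏ i, (g.map (Int.castRingHom ℂ)).eval (α i) := by
  classical
  let b := Module.finBasis ℚ (EE T)
  let M := LinearMap.toMatrix b b (UU T)
  let MC : Matrix _ _ ℂ := M.map (algebraMap ℚ ℂ)
  let s := MC.charpoly.roots.toList
  refine ⟨s.length, fun i => s.get i, fun g => ?_⟩
  have h1 : LinearMap.det (aeval (UU T) g) = (aeval M g).det := by
    rw [← LinearMap.det_toMatrix b]
    congr 1
    have : aeval (LinearMap.toMatrixAlgEquiv b (UU T)) g =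
        LinearMap.toMatrixAlgEquiv b (aeval (UU T) g) := by
      have := aeval_algHom_apply ((LinearMap.toMatrixAlgEquiv b).toAlgHom.restrictScalars ℤ) (UU T) g
      exact this
    exact this.symm
  have h2 : (((aeval M g).det : ℚ) : ℂ) = (aeval MC (g.map (Int.castRingHom ℂ))).det := by
    have e1 : (((aeval M g).det : ℚ) : ℂ) = (((aeval M g).map (algebraMap ℚ ℂ)) : Matrix _ _ ℂ).det := by
      rw [← RingHom.mapMatrix_apply, ← RingHom.map_det]; rfl
    rw [e1]
    congr 1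
    have e2 : ((algebraMap ℚ ℂ).mapMatrix (aeval M g) : Matrix _ _ ℂ) =
        aeval ((algebraMap ℚ ℂ).mapMatrix M) g := by
      rw [aeval_def, aeval_def, hom_eval₂]
      congr 1
      exact RingHom.ext_int _ _
    rw [← RingHom.mapMatrix_apply, e2, aeval_def, aeval_def, eval₂_map]
    congr 1
  rw [h1, h2, det_aeval_complex]
  have h3 : (MC.charpoly.roots.map fun α => (g.map (Int.castRingHom ℂ)).eval α) =
      (s.map fun α => (g.map (Int.castRingHom ℂ)).eval α : List ℂ) := by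
    rw [← Multiset.map_coe, Multiset.coe_toList]
  rw [h3, Multiset.prod_coe, ← List.prod_ofFn]
  congr 1
  apply List.ext_get
  · simp
  · intro i h1 h2; simp

end Pool.LU
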