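import Mathlib

/-!
A finitely generated `ℤ[X]`-module `T` such that `T / X T` is finite is an increasing union of
finitely generated subgroups, each of the same finite index in the next.
-/

set_option autoImplicit false

open Polynomial

namespace Pool.LU

variable {T : Type*} [AddCommGroup T] [Module ℤ[X] T]

/-- Multiplication by a polynomial, as an additive homomorphism. -/
noncomputable def mp (p : ℤ[X]) : T →+ T := (LinearMap.lsmul ℤ[X] T p).toAddMonoidHom

@[simp] theorem mp_apply (p : ℤ[X]) (t : T) : mp p t = p • t := rfl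

/-- The subgroup generated by `X ^ i s`, `i ≤ n`, `s` in `S`. -/
def HH (S : Finset T) (n : ℕ) : AddSubgroup T :=
  AddSubgroup.closure {x | ∃ i ≤ n, ∃ s ∈ S, x = (X : ℤ[X]) ^ i • s}

theorem HH_mem (S : Finset T) {n i : ℕ} (hi : i ≤ n) {s : T} (hs : s ∈ S) :
    (X : ℤ[X]) ^ i • s ∈ HH S n := AddSubgroup.subset_closure ⟨i, hi, s, hs, rfl⟩

theorem HH_mono (S : Finset T) : Monotone (HH S) := by
  intro a b h
  refine AddSubgroup.closure_mono ?_
  rintro x ⟨i, hi, s, hs, rfl⟩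
  exact ⟨i, hi.trans h, s, hs, rfl⟩

theorem HH_X (S : Finset T) {n : ℕ} {t : T} (ht : t ∈ HH S n) : (X : ℤ[X]) • t ∈ HH S (n + 1) := by
  have : HH S n ≤ (HH S (n + 1)).comap (mp X) := by
    rw [HH, AddSubgroup.closure_le]
    rintro x ⟨i, hi, s, hs, rfl⟩
    change (X : ℤ[X]) • ((X : ℤ[X]) ^ i • s) ∈ HH S (n + 1)
    rw [smul_smul, ← pow_succ']
    exact HH_mem S (by omega) hs
  exact this ht

theorem HH_succ (S : Finset T) (n : ℕ) : HH S (n + 1) = HH S n ⊔ (HH S n).map (mp X) := by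
  apply le_antisymm
  · rw [HH, AddSubgroup.closure_le]
    rintro x ⟨i, hi, s, hs, rfl⟩
    by_cases h : i ≤ n
    · exact AddSubgroup.mem_sup_left (HH_mem S h hs)
    · obtain rfl : i = n + 1 := by omega
      refine AddSubgroup.mem_sup_right ⟨(X : ℤ[X]) ^ n • s, HH_mem S le_rfl hs, ?_⟩
      rw [mp_apply, smul_smul, ← pow_succ']
  · refine sup_le (HH_mono S (Nat.le_succ n)) ?_
    rintro _ ⟨t, ht, rfl⟩
    exact HH_X S ht

theorem HH_fg (S : Finset T) (n : ℕ) : (HH S n).FG := by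
  rw [AddSubgroup.fg_iff]
  refine ⟨_, rfl, ?_⟩
  have : {x | ∃ i ≤ n, ∃ s ∈ S, x = (X : ℤ[X]) ^ i • s} =
      (fun z : ℕ × T => (X : ℤ[X]) ^ z.1 • z.2) '' (Set.Iic n ×ˢ (S : Set T)) := by
    ext x
    constructor
    · rintro ⟨i, hi, s, hs, rfl⟩
      exact ⟨(i, s), ⟨hi, hs⟩, rfl⟩
    · rintro ⟨⟨i, s⟩, ⟨hi, hs⟩, rfl⟩
      exact ⟨i, hi, s, hs, rfl⟩
  rw [this]
  exact ((Set.finite_Iic n).prod S.finite_toSet).image _

theorem HH_pow (S : Finset T) {n : ℕ} (k : ℕ) {t : T} (ht : t ∈ HH S n) :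
    (X : ℤ[X]) ^ k • t ∈ HH S (n + k) := by
  induction k with
  | zero => simpa using ht
  | succ k ih =>
    rw [pow_succ', ← smul_smul]
    exact HH_X S ih

theorem HH_int (S : Finset T) {n : ℕ} (a : ℤ) {t : T} (ht : t ∈ HH S n) :
    (C a : ℤ[X]) • t ∈ HH S n := by
  have : (C a : ℤ[X]) • t = a • t := by
    rw [show (C a : ℤ[X]) = a • (1 : ℤ[X]) by rw [zsmul_eq_mul, mul_one]; rfl, smul_assoc, one_smul]
  rw [this]
  exact AddSubgroup.zsmul_mem _ ht a

theorem HH_poly (S : Finset T) {n k : ℕ} (p : ℤ[X]) (hp : p.natDegree ≤ k) {t : T}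
    (ht : t ∈ HH S n) : p • t ∈ HH S (n + k) := by
  rw [p.as_sum_range_C_mul_X_pow, Finset.sum_smul]
  refine AddSubgroup.sum_mem _ fun i hi => ?_
  rw [Finset.mem_range] at hi
  rw [mul_smul]
  exact HH_int S _ (HH_mono S (by omega) (HH_pow S i ht))

theorem HH_ex (S : Finset T) (hS : Submodule.span ℤ[X] (S : Set T) = ⊤) (t : T) :
    ∃ j, t ∈ HH S j := by
  have ht : t ∈ Submodule.span ℤ[X] (S : Set T) := by rw [hS]; trivial
  induction ht using Submodule.span_induction with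
  | mem x hx =>
    refine ⟨0, ?_⟩
    have := HH_mem S (le_refl 0) (i := 0) (by exact_mod_cast hx)
    simpa using this
  | zero => exact ⟨0, AddSubgroup.zero_mem _⟩
  | add x y _ _ hx hy =>
    obtain ⟨i, hi⟩ := hx
    obtain ⟨j, hj⟩ := hy
    exact ⟨max i j, AddSubgroup.add_mem _ (HH_mono S (le_max_left _ _) hi)
      (HH_mono S (le_max_right _ _) hj)⟩
  | smul a x _ hx =>
    obtain ⟨i, hi⟩ := hx
    exact ⟨i + a.natDegree, HH_poly S a le_rfl hi⟩

/-- A polynomial with nonzero constant term annihilating the module. -/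
theorem exists_ann [Module.Finite ℤ[X] T] (hfin : (mp X : T →+ T).range.index ≠ 0) :
    ∃ P : ℤ[X], P ≠ 0 ∧ ∀ t : T, P • t = 0 := by
  set k := (mp X : T →+ T).range.index with hk
  have hk1 : ∀ t : T, ∃ t' : T, (X : ℤ[X]) • t' = (C (k : ℤ) : ℤ[X]) • t := by
    intro t
    have h1 : k • t ∈ (mp X : T →+ T).range := by
      have := AddSubgroup.nsmul_index_mem (mp X : T →+ T).range t
      exact this
    obtain ⟨t', ht'⟩ := h1
    refine ⟨t', ?_⟩
    rw [mp_apply] at ht'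
    rw [ht']
    rw [show (C (k : ℤ) : ℤ[X]) = (k : ℤ[X]) by simp, Nat.cast_smul_eq_nsmul]
  let f : Module.End ℤ[X] T := LinearMap.lsmul ℤ[X] T (C (k : ℤ))
  have hI : LinearMap.range f ≤ (Ideal.span {(X : ℤ[X])}) • (⊤ : Submodule ℤ[X] T) := by
    rintro _ ⟨t, rfl⟩
    obtain ⟨t', ht'⟩ := hk1 t
    change (C (k : ℤ) : ℤ[X]) • t ∈ _
    rw [← ht']
    exact Submodule.smul_mem_smul (Ideal.mem_span_singleton_self _) trivial
  obtain ⟨p, hp, -, hc, h0⟩ :=
    LinearMap.exists_monic_and_natDegree_eq_and_coeff_mem_pow_and_aeval_eq_zero ℤ[X] f _ hI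
  refine ⟨p.eval (C (k : ℤ)), ?_, ?_⟩
  · intro h
    have h2 := congrArg (fun q : ℤ[X] => q.coeff 0) h
    simp only [coeff_zero] at h2
    rw [eval_eq_sum_range, finsetSum_coeff, Finset.sum_range_succ] at h2
    have h3 : ∑ i ∈ Finset.range p.natDegree, (p.coeff i * (C (k : ℤ)) ^ i).coeff 0 = 0 := by
      refine Finset.sum_eq_zero fun i hi => ?_
      rw [Finset.mem_range] at hi
      rw [mul_coeff_zero]
      have h4 : p.coeff i ∈ Ideal.span {(X : ℤ[X])} :=
        Ideal.pow_le_self (by omega) (hc i)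
      rw [Ideal.mem_span_singleton] at h4
      rw [X_dvd_iff.1 h4, zero_mul]
    rw [h3, zero_add, hp.coeff_natDegree, one_mul, ← C_pow, coeff_C_zero] at h2
    exact hfin (by exact_mod_cast (pow_eq_zero_iff' .. |>.1 h2).1)
  · intro t
    have h1 : ∀ q : (ℤ[X])[X], (aeval f q) t = (q.eval (C (k : ℤ))) • t := by
      intro q
      induction q using Polynomial.induction_on' with
      | add p q hp hq => rw [map_add, LinearMap.add_apply, hp, hq, eval_add, add_smul]
      | monomial n a =>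
        rw [aeval_monomial, eval_monomial, Module.End.mul_apply, mul_smul]
        change (a : ℤ[X]) • ((f ^ n) t) = a • ((C (k : ℤ) : ℤ[X]) ^ n • t)
        congr 1
        induction n with
        | zero => simp
        | succ n ih => rw [pow_succ', Module.End.mul_apply, ih, pow_succ', mul_smul]; rfl
    rw [← h1, h0]; rfl

theorem HH_rel [Module.Finite ℤ[X] T] (hfin : (mp X : T →+ T).range.index ≠ 0) (S : Finset T) :
    ∃ D, ∀ n, D ≤ n → (HH S n).relIndex (HH S (n + 1)) ≠ 0 := by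
  obtain ⟨P, hP, hPt⟩ := exists_ann hfin
  refine ⟨P.natDegree, fun n hn => ?_⟩
  have hc : P.leadingCoeff ≠ 0 := leadingCoeff_ne_zero.2 hP
  have h1 : HH S (n + 1) ≤ (HH S n).comap (mp (C P.leadingCoeff)) := by
    rw [HH, AddSubgroup.closure_le]
    rintro x ⟨i, hi, s, hs, rfl⟩
    change (C P.leadingCoeff : ℤ[X]) • ((X : ℤ[X]) ^ i • s) ∈ HH S n
    by_cases hin : i ≤ n
    · exact HH_int S _ (HH_mem S hin hs)
    obtain rfl : i = n + 1 := by omega
    have h2 : (∑ i ∈ Finset.range P.natDegree, C (P.coeff i) * X ^ i : ℤ[X]) •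
          ((X : ℤ[X]) ^ (n + 1 - P.natDegree) • s) +
        (C (P.coeff P.natDegree) * X ^ P.natDegree : ℤ[X]) •
          ((X : ℤ[X]) ^ (n + 1 - P.natDegree) • s) = 0 := by
      rw [← add_smul, ← Finset.sum_range_succ (fun i => (C (P.coeff i) * X ^ i : ℤ[X])),
        ← P.as_sum_range_C_mul_X_pow]
      exact hPt _
    have h3 : (C P.leadingCoeff : ℤ[X]) • ((X : ℤ[X]) ^ (n + 1) • s) =
        (C (P.coeff P.natDegree) * X ^ P.natDegree : ℤ[X]) •
          ((X : ℤ[X]) ^ (n + 1 - P.natDegree) • s) := by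
      rw [mul_smul, smul_smul (X ^ P.natDegree : ℤ[X]), ← pow_add]
      congr 3
      omega
    rw [h3, eq_neg_of_add_eq_zero_right h2]
    refine AddSubgroup.neg_mem _ ?_
    rw [Finset.sum_smul]
    refine AddSubgroup.sum_mem _ fun j hj => ?_
    rw [Finset.mem_range] at hj
    rw [mul_smul, smul_smul (X ^ j : ℤ[X]), ← pow_add]
    exact HH_int S _ (HH_mem S (by omega) hs)
  have hfg : AddGroup.FG (HH S (n + 1)) := (AddGroup.fg_iff_addSubgroup_fg _).2 (HH_fg S _)
  let Q := (HH S (n + 1)) ⧸ (HH S n).addSubgroupOf (HH S (n + 1))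
  have hQfg : AddGroup.FG Q := QuotientAddGroup.fg _
  have htor : IsAddTorsion Q := by
    intro q
    obtain ⟨⟨t, ht⟩, rfl⟩ := QuotientAddGroup.mk_surjective q
    rw [isOfFinAddOrder_iff_nsmul_eq_zero]
    refine ⟨P.leadingCoeff.natAbs, Int.natAbs_pos.2 hc, ?_⟩
    rw [← QuotientAddGroup.mk_nsmul, QuotientAddGroup.eq_zero_iff, AddSubgroup.mem_addSubgroupOf]
    have h4 : (C P.leadingCoeff : ℤ[X]) • t ∈ HH S n := h1 ht
    have h5 : (C P.leadingCoeff : ℤ[X]) • t = P.leadingCoeff • t := by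
      rw [show (C P.leadingCoeff : ℤ[X]) = P.leadingCoeff • (1 : ℤ[X]) by
        rw [zsmul_eq_mul, mul_one]; rfl, smul_assoc, one_smul]
    rw [h5] at h4
    change P.leadingCoeff.natAbs • t ∈ HH S n
    rcases Int.natAbs_eq P.leadingCoeff with h6 | h6
    · rw [h6, natCast_zsmul] at h4
      exact h4
    · rw [h6, neg_zsmul, natCast_zsmul, AddSubgroup.neg_mem_iff] at h4
      exact h4
  have hfinQ : Finite Q := AddCommGroup.finite_of_fg_isAddTorsion Q htor
  rw [AddSubgroup.relIndex, AddSubgroup.index_ne_zero_iff_finite]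
  exact hfinQ

/-- The filtration. -/
structure Filt (T : Type*) [AddCommGroup T] [Module ℤ[X] T] where
  F : ℕ → AddSubgroup T
  succ : ∀ j, F (j + 1) = F j ⊔ (F j).map (mp X)
  ex : ∀ t, ∃ j, t ∈ F j
  fg : ∀ j, (F j).FG
  A : ℕ
  A_ne : A ≠ 0
  rel : ∀ j, (F j).relIndex (F (j + 1)) = A
  inj : ∀ j x, x ∈ F (j + 1) → (X : ℤ[X]) • x ∈ F (j + 1) → x ∈ F j

theorem exists_filt [Module.Finite ℤ[X] T] (hfin : (mp X : T →+ T).range.index ≠ 0) :
    Nonempty (Filt T) := by
  obtain ⟨S, hS⟩ := (Module.Finite.fg_top : (⊤ : Submodule ℤ[X] T).FG)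
  obtain ⟨D, hD⟩ := HH_rel hfin S
  let a : ℕ → ℕ := fun n => (HH S (D + n)).relIndex (HH S (D + n + 1))
  -- the maps between the quotients
  let Q : ℕ → Type _ := fun n => (HH S (n + 1)) ⧸ (HH S n).addSubgroupOf (HH S (n + 1))
  have hmap : ∀ n, ∃ f : Q n → Q (n + 1), Function.Surjective f ∧
      ∀ (x : T) (hx : x ∈ HH S (n + 1)), f (QuotientAddGroup.mk ⟨x, hx⟩) =
        QuotientAddGroup.mk ⟨(X : ℤ[X]) • x, HH_X S hx⟩ := by
    intro n
    let g : HH S (n + 1) →+ HH S (n + 1 + 1) :=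
      { toFun := fun x => ⟨(X : ℤ[X]) • (x : T), HH_X S x.2⟩
        map_zero' := by ext; simp
        map_add' := fun x y => by ext; simp }
    refine ⟨QuotientAddGroup.map _ _ g ?_, ?_, fun x hx => rfl⟩
    · rintro ⟨x, hx⟩ hx'
      rw [AddSubgroup.mem_addSubgroupOf] at hx'
      rw [AddSubgroup.mem_comap, AddSubgroup.mem_addSubgroupOf]
      exact HH_X S hx'
    · intro q
      obtain ⟨⟨t, ht⟩, rfl⟩ := QuotientAddGroup.mk_surjective q
      have ht' := ht
      rw [HH_succ] at ht'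
      obtain ⟨y, hy, z, ⟨w, hw, rfl⟩, hyz⟩ := AddSubgroup.mem_sup.1 ht'
      refine ⟨QuotientAddGroup.mk ⟨w, hw⟩, ?_⟩
      change QuotientAddGroup.mk (g ⟨w, hw⟩) = _
      rw [QuotientAddGroup.eq, AddSubgroup.mem_addSubgroupOf]
      change -((X : ℤ[X]) • w) + t ∈ HH S (n + 1)
      rw [← hyz, mp_apply]
      simpa [add_comm, add_left_comm] using hy
  have hanti : Antitone a := by
    apply antitone_nat_of_succ_le
    intro n
    obtain ⟨f, hf, -⟩ := hmap (D + n)
    have : Finite (Q (D + n)) := AddSubgroup.index_ne_zero_iff_finite.1 (hD (D + n) (by omega))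
    exact Nat.card_le_card_of_surjective f hf
  -- stabilisation
  obtain ⟨n1, hn1⟩ : ∃ n1, ∀ m, n1 ≤ m → a m = a n1 :=
    ⟨Function.argmin a, fun m hm => le_antisymm (hanti hm) (Function.argmin_le a m)⟩
  refine ⟨⟨fun j => HH S (D + n1 + 1 + j), fun j => ?_, fun t => ?_, fun j => HH_fg S _, a n1,
    hD _ (by omega), fun j => ?_, fun j x hx hx' => ?_⟩⟩
  · exact HH_succ S _
  · obtain ⟨j, hj⟩ := HH_ex S hS t
    exact ⟨j, HH_mono S (by omega) hj⟩
  · have := hn1 (n1 + 1 + j) (by omega)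
    rw [← this]
    change _ = (HH S (D + (n1 + 1 + j))).relIndex (HH S (D + (n1 + 1 + j) + 1))
    have e : D + (n1 + 1 + j) = D + n1 + 1 + j := by omega
    rw [e]
    rfl
  · obtain ⟨f, hf, hf'⟩ := hmap (D + n1 + 1 + j)
    have : Finite (Q (D + n1 + 1 + j)) := AddSubgroup.index_ne_zero_iff_finite.1 (hD _ (by omega))
    have hcard : Nat.card (Q (D + n1 + 1 + j)) ≤ Nat.card (Q (D + n1 + 1 + j + 1)) := by
      have e1 : a (n1 + 1 + j) = a n1 := hn1 _ (by omega)
      have e2 : a (n1 + 1 + j + 1) = a n1 := hn1 _ (by omega)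
      have e3 : a (n1 + 1 + j) = Nat.card (Q (D + (n1 + 1 + j))) := rfl
      have e4 : a (n1 + 1 + j + 1) = Nat.card (Q (D + (n1 + 1 + j + 1))) := rfl
      have e5 : D + n1 + 1 + j = D + (n1 + 1 + j) := by omega
      have e6 : D + n1 + 1 + j + 1 = D + (n1 + 1 + j + 1) := by omega
      rw [e5, ← e3, e1, ← e2, e4]
      exact le_of_eq rfl
    have hbij := hf.bijective_of_nat_card_le hcard
    have hx2 : (QuotientAddGroup.mk ⟨x, hx⟩ : Q (D + n1 + 1 + j)) = QuotientAddGroup.mk 0 := by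
      apply hbij.injective
      rw [hf' x hx]
      have h0 := hf' 0 (AddSubgroup.zero_mem _)
      have h0' : (QuotientAddGroup.mk (0 : HH S (D + n1 + 1 + j + 1)) : Q (D + n1 + 1 + j)) =
        QuotientAddGroup.mk ⟨0, AddSubgroup.zero_mem _⟩ := rfl
      rw [h0', h0, QuotientAddGroup.eq, AddSubgroup.mem_addSubgroupOf]
      change -((X : ℤ[X]) • x) + (X : ℤ[X]) • (0 : T) ∈ HH S (D + n1 + 1 + j + 1)
      rw [smul_zero, add_zero, AddSubgroup.neg_mem_iff]
      exact hx'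
    rw [QuotientAddGroup.eq, AddSubgroup.mem_addSubgroupOf] at hx2
    have hx3 : -x + 0 ∈ HH S (D + n1 + 1 + j) := hx2
    rwa [add_zero, AddSubgroup.neg_mem_iff] at hx3

end Pool.LU
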