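import Pool.Agent.H39.LU.Det
import Pool.Agent.H39.LU.An

/-!
Project LU, part Y, algebraic core: exponential growth of `T / (1 + X + ... + X ^ (m-1)) T` for a
finitely generated `ℤ[X]`-module `T` on which `X` is injective with finite cokernel.
-/

set_option autoImplicit false

open Polynomial TensorProduct

namespace Pool.LU

/-- The polynomial `1 + X + ... + X ^ (m - 1)`. -/
noncomputable def gp (m : ℕ) : ℤ[X] := ∑ i ∈ Finset.range m, X ^ i

theorem gp_mul (m : ℕ) : gp m * (X - 1) = X ^ m - 1 := geom_sum_mul X m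

theorem gp_monic (k : ℕ) : (gp (k + 2)).Monic ∧ (gp (k + 2)).natDegree = k + 1 := by
  have h1 : (gp (k + 2)) = X ^ (k + 1) + gp (k + 1) := by
    rw [gp, Finset.sum_range_succ, add_comm]; rfl
  have h2 : (gp (k + 1)).degree < ((k + 1 : ℕ) : WithBot ℕ) := by
    refine (degree_sum_le _ _).trans_lt ?_
    rw [Finset.sup_lt_iff (WithBot.bot_lt_coe _)]
    intro i hi
    rw [Finset.mem_range] at hi
    rw [degree_X_pow]
    exact_mod_cast hi
  have h3 : (gp (k + 2)).Monic := by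
    rw [h1]; exact monic_X_pow_add h2
  refine ⟨h3, ?_⟩
  apply natDegree_eq_of_degree_eq_some
  rw [h1, degree_add_eq_left_of_degree_lt (by rwa [degree_X_pow]), degree_X_pow]

theorem gp_eval (m : ℕ) (z : ℂ) : ((gp m).map (Int.castRingHom ℂ)).eval z = gs z m := by
  rw [gp, gs, Polynomial.map_sum, eval_finsetSum]
  simp

/-- **Growth theorem.** -/
theorem growthT (T : Type*) [AddCommGroup T] [Module ℤ[X] T] [Module.Finite ℤ[X] T]
    (hinj : ∀ t : T, (X : ℤ[X]) • t = 0 → t = 0) (hfin : (mp X : T →+ T).range.index ≠ 0) :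
    ∃ c : ℝ, 0 < c ∧ ∀ B : ℕ, ∃ m : ℕ, B ≤ m ∧ (mp (gp m) : T →+ T).range.index ≠ 0 ∧
      c * ((mp X : T →+ T).range.index : ℝ) ^ m ≤ ((mp (gp m) : T →+ T).range.index : ℝ) := by
  obtain ⟨Φ⟩ := exists_filt hfin
  have hfd := Φ.finiteDim
  have hdet := det_UU_ne hfin
  obtain ⟨n, α, hα⟩ := exists_eig (T := T)
  have hX := hα X
  rw [aeval_X, Polynomial.map_X] at hX
  simp only [eval_X] at hX
  have hα0 : ∀ k, α k ≠ 0 := by
    intro k hk
    have h1 : (∏ i, α i) = 0 := Finset.prod_eq_zero (Finset.mem_univ k) hk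
    rw [h1] at hX
    exact hdet (by exact_mod_cast hX)
  obtain ⟨c, hc, hc'⟩ := prod_gs α hα0
  have hA : (0 : ℝ) < Φ.A := by exact_mod_cast Nat.pos_of_ne_zero Φ.A_ne
  have hδ : ((mp X : T →+ T).range.index : ℝ) = (∏ i, ‖α i‖) * Φ.A := by
    have h1 := Φ.exact hinj hdet
    have h2 : (((mp X : T →+ T).range.index : ℚ) : ℝ) = ((|LinearMap.det (UU T)| * (Φ.A : ℚ) : ℚ) : ℝ) := by
      rw [h1]
    push_cast at h2
    rw [h2]
    congr 1
    rw [← norm_prod, ← hX]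
    rw [show (((LinearMap.det (UU T) : ℚ)) : ℂ) = (((LinearMap.det (UU T) : ℚ) : ℝ) : ℂ) by
      push_cast; rfl, Complex.norm_real, Real.norm_eq_abs]
  refine ⟨c / Φ.A, by positivity, fun B => ?_⟩
  obtain ⟨m, hm, hm0, hm1⟩ := hc' (B + 2)
  obtain ⟨k, rfl⟩ : ∃ k, m = k + 2 := ⟨m - 2, by omega⟩
  refine ⟨k + 2, by omega, ?_⟩
  obtain ⟨hmon, hdeg⟩ := gp_monic k
  have h3 := hα (gp (k + 2))
  simp only [gp_eval] at h3
  have hdetg : LinearMap.det (aeval (UU T) (gp (k + 2))) ≠ 0 := by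
    intro h
    rw [h] at h3
    have h4 : (∏ i, gs (α i) (k + 2)) ≠ 0 := Finset.prod_ne_zero_iff.2 fun i _ => hm0 i
    exact h4 (by rw [← h3]; simp)
  have h5 : ((|LinearMap.det (aeval (UU T) (gp (k + 2)))| : ℚ) : ℝ) = ∏ i, ‖gs (α i) (k + 2)‖ := by
    rw [← norm_prod, ← h3]
    rw [show (((LinearMap.det (aeval (UU T) (gp (k + 2))) : ℚ)) : ℂ) =
      (((LinearMap.det (aeval (UU T) (gp (k + 2))) : ℚ) : ℝ) : ℂ) by push_cast; rfl,
      Complex.norm_real, Real.norm_eq_abs]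
    push_cast; rfl
  have h6 := Φ.lower (gp (k + 2)) hmon hdeg hdetg
  have h7 : (((|LinearMap.det (aeval (UU T) (gp (k + 2)))| * (Φ.A : ℚ) ^ (k + 1) : ℚ)) : ℝ) ≤
      (((mp (gp (k + 2)) : T →+ T).range.index : ℚ) : ℝ) := by exact_mod_cast h6
  rw [Rat.cast_mul, h5] at h7
  push_cast at h7
  have h8 : c / Φ.A * ((mp X : T →+ T).range.index : ℝ) ^ (k + 2) ≤
      ((mp (gp (k + 2)) : T →+ T).range.index : ℝ) := by
    refine le_trans ?_ h7
    rw [hδ, mul_pow, ← Finset.prod_pow]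
    calc c / Φ.A * ((∏ i, ‖α i‖ ^ (k + 2)) * (Φ.A : ℝ) ^ (k + 2))
        = (c * ∏ i, ‖α i‖ ^ (k + 2)) * (Φ.A : ℝ) ^ (k + 1) := by
          rw [pow_succ (Φ.A : ℝ) (k + 1)]; field_simp
      _ ≤ _ := by gcongr
  refine ⟨?_, h8⟩
  intro h0
  rw [h0, Nat.cast_zero] at h8
  have h9 : (0 : ℝ) < ((mp X : T →+ T).range.index : ℝ) := by
    exact_mod_cast Nat.pos_of_ne_zero hfin
  have h10 : 0 < c / Φ.A * ((mp X : T →+ T).range.index : ℝ) ^ (k + 2) := by positivity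
  linarith

/-- The rational vector space `ℚ ⊗ T` is finite dimensional. -/
theorem finiteDim_of_index (T : Type*) [AddCommGroup T] [Module ℤ[X] T] [Module.Finite ℤ[X] T]
    (hfin : (mp X : T →+ T).range.index ≠ 0) : FiniteDimensional ℚ (EE T) := by
  obtain ⟨Φ⟩ := exists_filt hfin
  exact Φ.finiteDim

end Pool.LU
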