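import Mathlib

/-!
Indices of subgroups under a homomorphism; lattices in rational vector spaces.
-/

set_option autoImplicit false

namespace Pool.LU

section idx

variable {T E : Type*} [AddCommGroup T] [AddCommGroup E]

theorem idx_formula (f : T →+ E) (A B : AddSubgroup T) (h : A ≤ B) :
    A.relIndex B * Nat.card ↥(A ⊓ f.ker) = (A.map f).relIndex (B.map f) * Nat.card ↥(B ⊓ f.ker) := by
  have h1 : (A.map f).relIndex (B.map f) = (A ⊔ f.ker).relIndex B := by
    rw [AddSubgroup.relIndex_map_map]
    have : B ⊔ f.ker = B ⊔ (A ⊔ f.ker) := by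
      rw [← sup_assoc, sup_eq_left.2 h]
    rw [this, AddSubgroup.relIndex_sup_right]
  have h2 : A.relIndex ((A ⊔ f.ker) ⊓ B) * ((A ⊔ f.ker) ⊓ B).relIndex B = A.relIndex B :=
    AddSubgroup.relIndex_mul_relIndex _ _ _ (le_inf le_sup_left h) inf_le_right
  rw [AddSubgroup.inf_relIndex_right] at h2
  have h3 : (A ⊔ f.ker) ⊓ B = (f.ker ⊓ B) ⊔ A := by
    rw [sup_inf_assoc_of_le _ h, sup_comm]
  have h4 : A.relIndex ((A ⊔ f.ker) ⊓ B) = (A ⊓ f.ker).relIndex (B ⊓ f.ker) := by
    rw [h3, AddSubgroup.relIndex_sup_right, ← AddSubgroup.inf_relIndex_right A (f.ker ⊓ B),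
      inf_comm f.ker B]
    congr 1
    rw [← inf_assoc, inf_eq_left.2 h]
  have h5 : Nat.card ↥(A ⊓ f.ker) * (A ⊓ f.ker).relIndex (B ⊓ f.ker) = Nat.card ↥(B ⊓ f.ker) := by
    have := AddSubgroup.relIndex_mul_relIndex ⊥ (A ⊓ f.ker) (B ⊓ f.ker) bot_le
      (inf_le_inf_right _ h)
    rwa [AddSubgroup.relIndex_bot_left, AddSubgroup.relIndex_bot_left] at this
  rw [h1, ← h2, h4, ← h5]
  ring

end idx

section lattice

variable {E : Type*} [AddCommGroup E] [Module ℚ E] [FiniteDimensional ℚ E]

/-- A finitely generated subgroup spanning a rational vector space has a basis which is a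
rational basis. -/
theorem exists_lattice_basis (L : AddSubgroup E) (hfg : L.FG)
    (hs : Submodule.span ℚ (L : Set E) = ⊤) :
    ∃ b : Module.Basis (Fin (Module.finrank ℚ E)) ℚ E, L = AddSubgroup.closure (Set.range b) := by
  classical
  let N : Submodule ℤ E := L.toIntSubmodule
  have hN : N.FG := by
    rw [Submodule.fg_iff_addSubgroup_fg]
    simpa [N] using hfg
  have : Module.Finite ℤ N := Module.Finite.iff_fg.2 hN
  have : IsAddTorsionFree E := by
    exact IsAddTorsionFree.of_module_rat E
  have : Module.IsTorsionFree ℤ N := inferInstance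
  have : Module.Free ℤ N := inferInstance
  let bN := Module.Free.chooseBasis ℤ N
  have hli : LinearIndependent ℤ (fun i => (bN i : E)) :=
    bN.linearIndependent.map' N.subtype (Submodule.ker_subtype N)
  have hli' : LinearIndependent ℚ (fun i => (bN i : E)) :=
    (LinearIndependent.iff_fractionRing ℤ ℚ).1 hli
  have hcl : L = AddSubgroup.closure (Set.range fun i => (bN i : E)) := by
    have h1 : Submodule.span ℤ (Set.range fun i => (bN i : E)) = N := by
      have : (Set.range fun i => (bN i : E)) = N.subtype '' Set.range bN := by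
        rw [← Set.range_comp]; rfl
      rw [this, Submodule.span_image, bN.span_eq, Submodule.map_top, Submodule.range_subtype]
    have h2 : L = N.toAddSubgroup := by simp [N]
    have h3 := congrArg Submodule.toAddSubgroup h1
    rw [Submodule.span_int_eq_addSubgroupClosure] at h3
    exact h2.trans h3.symm
  have hsp : ⊤ ≤ Submodule.span ℚ (Set.range fun i => (bN i : E)) := by
    rw [← hs, Submodule.span_le]
    intro x hx
    rw [hcl] at hx
    have : AddSubgroup.closure (Set.range fun i => (bN i : E)) ≤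
        (Submodule.span ℚ (Set.range fun i => (bN i : E))).toAddSubgroup := by
      rw [AddSubgroup.closure_le]
      exact Submodule.subset_span
    exact this hx
  let b := Module.Basis.mk hli' hsp
  have hb : ∀ i, b i = bN i := fun i => by rw [Module.Basis.mk_apply]
  let e : Module.Free.ChooseBasisIndex ℤ N ≃ Fin (Module.finrank ℚ E) :=
    Fintype.equivFinOfCardEq (Module.finrank_eq_card_basis b).symm
  refine ⟨b.reindex e, ?_⟩
  rw [Module.Basis.range_reindex]
  have : (Set.range b) = Set.range fun i => (bN i : E) := by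
    congr 1; funext i; exact hb i
  rw [this]
  exact hcl

theorem relIndex_image (L L' : AddSubgroup E) (h : L ≤ L') (hfg : L.FG) (hfg' : L'.FG)
    (hs : Submodule.span ℚ (L : Set E) = ⊤) (f : E →ₗ[ℚ] E) (hf : LinearMap.det f ≠ 0)
    (hfL : L.map f.toAddMonoidHom ≤ L') :
    (((L.map f.toAddMonoidHom).relIndex L' : ℕ) : ℚ) = (L.relIndex L' : ℚ) * |LinearMap.det f| := by
  have hs' : Submodule.span ℚ (L' : Set E) = ⊤ :=
    top_le_iff.1 (hs ▸ Submodule.span_mono h)
  obtain ⟨b, hb⟩ := exists_lattice_basis L hfg hs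
  obtain ⟨b', hb'⟩ := exists_lattice_basis L' hfg' hs'
  have h1 := AddSubgroup.relIndex_eq_abs_det L L' h b b' hb hb'
  let F : E ≃ₗ[ℚ] E := LinearEquiv.ofIsUnitDet (f := f) (v := b) (v' := b) (by
    rw [LinearMap.det_toMatrix]; exact isUnit_iff_ne_zero.2 hf)
  have hF : ∀ x, F x = f x := fun x => rfl
  have h2 := AddSubgroup.relIndex_eq_abs_det (L.map f.toAddMonoidHom) L' hfL (b.map F) b' (by
    rw [hb, AddMonoidHom.map_closure, ← Set.range_comp]
    congr 2) hb'
  rw [h2, h1, ← abs_mul]
  congr 1
  have h3 : (⇑(b.map F) : _ → E) = f ∘ b := by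
    funext i; rw [Module.Basis.map_apply]; rfl
  rw [h3, Module.Basis.det_comp, mul_comm]

end lattice

end Pool.LU
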