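import Pool.Agent.H39.LU.Growth
import Pool.Agent.H81.LU.YDefs
import Pool.Agent.H87.L2.Base

/-!
Project LU, part Y, module TG (first file): the quotient complexes `C / q` of a complex over
`ℤ[X]`, for `q = X` and `q = X ^ m - 1`.
-/

set_option autoImplicit false

open Polynomial Pool.H3.L2

noncomputable section

namespace Pool.LU

/-- `C'` is the quotient of `C` by `q`. -/
structure QM (C : BCx ℤ[X]) (q : ℤ[X]) (C' : BCx ℤ) where
  Φ : (C.S → ℤ[X]) →+ (C'.S → ℤ)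
  bd : ∀ v, Φ (Matrix.vecMul v C.D) = Matrix.vecMul (Φ v) C'.D
  ker : ∀ v, Φ v = 0 → ∃ w, v = q • w
  zero : ∀ v, Φ (q • v) = 0
  supp : ∀ k v, (∀ s, C.deg s ≠ k → v s = 0) → ∀ s, C'.deg s ≠ k → Φ v s = 0
  lift : ∀ k v', (∀ s, C'.deg s ≠ k → v' s = 0) →
    ∃ v, (∀ s, C.deg s ≠ k → v s = 0) ∧ Φ v = v'
  q_ne : q ≠ 0

namespace QM

variable {C : BCx ℤ[X]} {q : ℤ[X]} {C' : BCx ℤ}

theorem cancel (Q : QM C q C') {v : C.S → ℤ[X]} (h : q • v = 0) : v = 0 := by
  funext s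
  have h1 := congrFun h s
  rw [Pi.smul_apply, smul_eq_mul, Pi.zero_apply] at h1
  exact (mul_eq_zero.1 h1).resolve_left Q.q_ne

theorem cancel' (Q : QM C q C') {v w : C.S → ℤ[X]} (h : q • v = q • w) : v = w := by
  rw [← sub_eq_zero]
  apply Q.cancel
  rw [smul_sub, h, sub_self]

theorem supp_of (Q : QM C q C') {k : ℕ} {v : C.S → ℤ[X]}
    (h : ∀ s, C.deg s ≠ k → (q • v) s = 0) : ∀ s, C.deg s ≠ k → v s = 0 := by
  intro s hs
  have h1 := h s hs
  rw [Pi.smul_apply, smul_eq_mul] at h1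
  exact (mul_eq_zero.1 h1).resolve_left Q.q_ne

theorem cyc_of (Q : QM C q C') {k : ℕ} {v : C.S → ℤ[X]} (h : q • v ∈ C.Zk k) : v ∈ C.Zk k := by
  refine ⟨Q.supp_of h.1, Q.cancel ?_⟩
  rw [← Matrix.smul_vecMul]
  exact h.2

theorem map_Zk (Q : QM C q C') {k : ℕ} {v : C.S → ℤ[X]} (h : v ∈ C.Zk k) : Q.Φ v ∈ C'.Zk k := by
  refine ⟨Q.supp k v h.1, ?_⟩
  rw [← Q.bd, h.2, map_zero]

theorem map_Bk (Q : QM C q C') {k : ℕ} {v : C.S → ℤ[X]} (h : v ∈ C.Bk k) : Q.Φ v ∈ C'.Bk k := by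
  obtain ⟨w, hw, rfl⟩ := h
  exact ⟨Q.Φ w, Q.supp _ w hw, by rw [← Q.bd]⟩

/-- `q` is injective on `H_k(C)` if `H_{k+1}(C / q) = 0`. -/
theorem inj (Q : QM C q C') {k : ℕ} (h0 : C'.Zk (k + 1) ≤ C'.Bk (k + 1)) {z : C.S → ℤ[X]}
    (h : q • z ∈ C.Bk k) : z ∈ C.Bk k := by
  obtain ⟨w, hw, hd⟩ := h
  have h1 : Q.Φ w ∈ C'.Zk (k + 1) := by
    refine ⟨Q.supp _ w hw, ?_⟩
    rw [← Q.bd, hd, Q.zero]
  obtain ⟨v', hv', hd'⟩ := h0 h1
  obtain ⟨v, hv, rfl⟩ := Q.lift _ v' hv'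
  have h2 : Q.Φ (w - Matrix.vecMul v C.D) = 0 := by
    rw [map_sub, Q.bd, hd', sub_self]
  obtain ⟨w', hw'⟩ := Q.ker _ h2
  have h3 : ∀ s, C.deg s ≠ k + 1 → (q • w') s = 0 := by
    intro s hs
    rw [← hw', Pi.sub_apply, hw s hs]
    have h4 := (C.Bk_le_Zk (k + 1) ⟨v, hv, rfl⟩).1 s hs
    rw [h4, sub_zero]
  refine ⟨w', Q.supp_of h3, ?_⟩
  apply Q.cancel'
  rw [← hd, ← Matrix.smul_vecMul, ← hw', Matrix.sub_vecMul, Matrix.vecMul_vecMul, C.D_D,
    Matrix.vecMul_zero, sub_zero]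

/-- The map `H_k(C) / q → H_k(C / q)` is injective. -/
theorem quot (Q : QM C q C') {k : ℕ} {z : C.S → ℤ[X]} (hz : z ∈ C.Zk k)
    (h : Q.Φ z ∈ C'.Bk k) : ∃ y ∈ C.Zk k, z - q • y ∈ C.Bk k := by
  obtain ⟨v', hv', hd'⟩ := h
  obtain ⟨v, hv, rfl⟩ := Q.lift _ v' hv'
  have h2 : Q.Φ (z - Matrix.vecMul v C.D) = 0 := by
    rw [map_sub, Q.bd, hd', sub_self]
  obtain ⟨y, hy⟩ := Q.ker _ h2
  have hB : Matrix.vecMul v C.D ∈ C.Bk k := ⟨v, hv, rfl⟩
  refine ⟨y, ?_, ?_⟩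
  · apply Q.cyc_of
    rw [← hy]
    exact Submodule.sub_mem _ hz (C.Bk_le_Zk k hB)
  · rw [← hy, sub_sub_cancel]
    exact hB

theorem vec_zero {v : C.S → ℤ[X]} (h : ∀ s, C.deg s ≠ 0 → v s = 0) :
    Matrix.vecMul v C.D = 0 := by
  funext t
  show ∑ s, v s * C.D s t = 0
  refine Finset.sum_eq_zero fun s _ => ?_
  by_cases hs : C.deg s = 0
  · rw [C.D_zero (by omega), mul_zero]
  · rw [h s hs, zero_mul]

theorem vec_supp {k : ℕ} {v : C.S → ℤ[X]} (h : ∀ s, C.deg s ≠ k + 1 → v s = 0) :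
    Matrix.vecMul v C.D ∈ C.Zk k := C.Bk_le_Zk k ⟨v, h, rfl⟩

/-- The map `H_{k+1}(C) → H_{k+1}(C / q)` is surjective if `q` is injective on `H_k(C)`. -/
theorem surj (Q : QM C q C') {k : ℕ} (hinj : ∀ z ∈ C.Zk k, q • z ∈ C.Bk k → z ∈ C.Bk k)
    {z' : C'.S → ℤ} (hz : z' ∈ C'.Zk (k + 1)) : ∃ z ∈ C.Zk (k + 1), Q.Φ z = z' := by
  obtain ⟨z, hz1, rfl⟩ := Q.lift _ z' hz.1
  have h1 : Q.Φ (Matrix.vecMul z C.D) = 0 := by rw [Q.bd]; exact hz.2
  obtain ⟨y, hy⟩ := Q.ker _ h1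
  have hB : Matrix.vecMul z C.D ∈ C.Bk k := ⟨z, hz1, rfl⟩
  have hy1 : y ∈ C.Zk k := by
    apply Q.cyc_of
    rw [← hy]
    exact C.Bk_le_Zk k hB
  obtain ⟨w, hw, hd⟩ := hinj y hy1 (by rw [← hy]; exact hB)
  refine ⟨z - q • w, ⟨fun s hs => ?_, ?_⟩, ?_⟩
  · rw [Pi.sub_apply, Pi.smul_apply, hz1 s hs, hw s hs, smul_zero, sub_zero]
  · rw [Matrix.sub_vecMul, hy, Matrix.smul_vecMul, hd, sub_self]
  · rw [map_sub, Q.zero, sub_zero]

/-- Boundary of a lift of a cycle. -/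
theorem lift_bd (Q : QM C q C') {k : ℕ} {z' : C'.S → ℤ} (hz : z' ∈ C'.Zk k) :
    ∃ z y : C.S → ℤ[X], (∀ s, C.deg s ≠ k → z s = 0) ∧ Q.Φ z = z' ∧ y ∈ C.Zk (k - 1) ∧
      Matrix.vecMul z C.D = q • y := by
  obtain ⟨z, hz1, rfl⟩ := Q.lift _ z' hz.1
  have h1 : Q.Φ (Matrix.vecMul z C.D) = 0 := by rw [Q.bd]; exact hz.2
  obtain ⟨y, hy⟩ := Q.ker _ h1
  refine ⟨z, y, hz1, rfl, ?_, hy⟩
  cases k with
  | zero =>
    rw [vec_zero hz1] at hy
    rw [Q.cancel hy.symm]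
    exact Submodule.zero_mem _
  | succ k =>
    apply Q.cyc_of
    rw [← hy]
    exact vec_supp hz1

end QM

/-! ### `q = X` -/

theorem at0_bd (C : BCx ℤ[X]) (v : C.S → ℤ[X]) :
    (fun t => (Matrix.vecMul v C.D t).eval 0) =
      Matrix.vecMul (fun s => (v s).eval 0) (at0 C).D := by
  funext t
  show (∑ s, v s * C.D s t).eval 0 = ∑ s, (v s).eval 0 * (C.D s t).eval 0
  rw [eval_finsetSum]
  exact Finset.sum_congr rfl fun s _ => eval_mul

/-- `at0 C` is the quotient by `X`. -/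
def qm0 (C : BCx ℤ[X]) : QM C X (at0 C) where
  Φ :=
    { toFun := fun v s => (v s).eval 0
      map_zero' := by funext s; exact eval_zero
      map_add' := by intro v w; funext s; exact eval_add }
  bd := at0_bd C
  ker := by
    intro v hv
    have h1 : ∀ s, ∃ w, v s = X * w := by
      intro s
      have h2 : (v s).eval 0 = 0 := congrFun hv s
      rw [← coeff_zero_eq_eval_zero, ← X_dvd_iff] at h2
      exact h2
    choose w hw using h1
    exact ⟨w, funext hw⟩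
  zero := by
    intro v
    funext s
    show (X * v s).eval 0 = 0
    rw [eval_mul, eval_X, zero_mul]
  supp := by
    intro k v hv s hs
    show (v s).eval 0 = 0
    rw [hv s hs, eval_zero]
  lift := by
    intro k v' hv'
    refine ⟨fun s => Polynomial.C (v' s), fun s hs => ?_, ?_⟩
    · show Polynomial.C (v' s) = 0
      have h1 : v' s = 0 := hv' s hs
      exact (congrArg _ h1).trans Polynomial.C_0
    · funext s
      exact eval_C
  q_ne := X_ne_zero

/-! ### `q = X ^ m - 1` -/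

section cycm

variable (m : ℕ) [NeZero m]

theorem shiftM_pow (n : ℕ) (i j : ZMod m) :
    (shiftM m ^ n) i j = if j = i + n then 1 else 0 := by
  induction n generalizing i j with
  | zero => simp [Matrix.one_apply, eq_comm]
  | succ n ih =>
    rw [pow_succ, Matrix.mul_apply]
    rw [Finset.sum_eq_single (i + (n : ZMod m))]
    · rw [ih, if_pos rfl, one_mul]
      simp only [shiftM]
      push_cast
      rw [add_assoc]
    · intro b _ hb
      rw [ih, if_neg hb, zero_mul]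
    · intro h; exact absurd (Finset.mem_univ _) h

theorem shiftM_pow_m : shiftM m ^ m = 1 := by
  ext i j
  rw [shiftM_pow, Matrix.one_apply]
  simp [eq_comm]

/-- The coefficient of a polynomial modulo `X ^ m - 1`. -/
def cf (p : ℤ[X]) (i : ZMod m) : ℤ := (aeval (shiftM m) p : Matrix (ZMod m) (ZMod m) ℤ) 0 i

theorem cf_X_pow (n : ℕ) (i : ZMod m) : cf m (X ^ n) i = if i = n then 1 else 0 := by
  unfold cf
  rw [map_pow, aeval_X, shiftM_pow, zero_add]

theorem cf_add (p r : ℤ[X]) (i : ZMod m) : cf m (p + r) i = cf m p i + cf m r i := by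
  unfold cf
  rw [map_add, Matrix.add_apply]

theorem cf_zero (i : ZMod m) : cf m 0 i = 0 := by
  unfold cf
  rw [map_zero, Matrix.zero_apply]

theorem cf_C_mul (c : ℤ) (p : ℤ[X]) (i : ZMod m) : cf m (Polynomial.C c * p) i = c * cf m p i := by
  unfold cf
  rw [map_mul, aeval_C, ← Algebra.smul_def, Matrix.smul_apply, smul_eq_mul]

theorem cf_sum {ι : Type*} (s : Finset ι) (f : ι → ℤ[X]) (i : ZMod m) :
    cf m (∑ x ∈ s, f x) i = ∑ x ∈ s, cf m (f x) i := by
  unfold cf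
  rw [map_sum, Matrix.sum_apply]

theorem cf_q (p : ℤ[X]) (i : ZMod m) : cf m ((X ^ m - 1) * p) i = 0 := by
  unfold cf
  rw [map_mul, map_sub, map_pow, aeval_X, map_one, shiftM_pow_m, sub_self, zero_mul,
    Matrix.zero_apply]

theorem monic_q : (X ^ m - 1 : ℤ[X]).Monic := by
  exact monic_X_pow_sub_C 1 (NeZero.ne m)

omit [NeZero m] in
theorem natDegree_q : (X ^ m - 1 : ℤ[X]).natDegree = m := by
  exact natDegree_X_pow_sub_C (n := m) (r := (1 : ℤ))

theorem dvd_of_cf (p : ℤ[X]) (h : ∀ i, cf m p i = 0) : ∃ w, p = (X ^ m - 1) * w := by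
  have hmon := monic_q m
  have h1 := modByMonic_add_div p (X ^ m - 1 : ℤ[X])
  set r := p %ₘ (X ^ m - 1) with hr
  have h2 : ∀ i, cf m r i = 0 := by
    intro i
    have h3 := h i
    rw [← h1, cf_add, cf_q, add_zero] at h3
    exact h3
  have hdeg : r.natDegree < m := by
    have h3 := natDegree_modByMonic_lt p hmon (by
      intro h4
      have h5 := natDegree_q m
      rw [h4, natDegree_one] at h5
      exact NeZero.ne m h5.symm)
    rwa [natDegree_q] at h3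
  have h4 : r = 0 := by
    ext n
    rw [coeff_zero]
    by_cases hn : n < m
    · have h5 := h2 (n : ZMod m)
      rw [r.as_sum_range' m hdeg, cf_sum] at h5
      rw [← h5]
      rw [Finset.sum_eq_single n]
      · rw [← C_mul_X_pow_eq_monomial, cf_C_mul, cf_X_pow, if_pos rfl, mul_one]
      · intro b hb hbn
        rw [Finset.mem_range] at hb
        rw [← C_mul_X_pow_eq_monomial, cf_C_mul, cf_X_pow, if_neg, mul_zero]
        intro h6
        apply hbn
        have h7 := congrArg ZMod.val h6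
        rw [ZMod.val_natCast_of_lt hn, ZMod.val_natCast_of_lt hb] at h7
        exact h7.symm
      · intro h6
        exact absurd (Finset.mem_range.2 hn) h6
    · exact coeff_eq_zero_of_natDegree_lt (by omega)
  exact ⟨p /ₘ (X ^ m - 1), by rw [h4, zero_add] at h1; exact h1.symm⟩

theorem cf_surj (u : ZMod m → ℤ) (i : ZMod m) :
    cf m (∑ j : ZMod m, Polynomial.C (u j) * X ^ j.val) i = u i := by
  rw [cf_sum, Finset.sum_eq_single i]
  · rw [cf_C_mul, cf_X_pow, ZMod.natCast_zmod_val, if_pos rfl, mul_one]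
  · intro b _ hb
    rw [cf_C_mul, cf_X_pow, ZMod.natCast_zmod_val, if_neg (Ne.symm hb), mul_zero]
  · intro h; exact absurd (Finset.mem_univ _) h

/-- `cyc C m` is the quotient by `X ^ m - 1`. -/
def qmc (C : BCx ℤ[X]) : QM C (X ^ m - 1) (cyc C m) where
  Φ :=
    { toFun := fun v s => cf m (v s.1) s.2
      map_zero' := by funext s; exact cf_zero m _
      map_add' := by intro v w; funext s; exact cf_add m _ _ _ }
  bd := by
    intro v
    funext t
    show cf m (∑ s, v s * C.D s t.1) t.2 =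
      ∑ s : C.S × ZMod m, cf m (v s.1) s.2 * cycD C m s t
    rw [cf_sum, Fintype.sum_prod_type]
    refine Finset.sum_congr rfl fun s _ => ?_
    unfold cf cycD
    rw [map_mul, Matrix.mul_apply]
  ker := by
    intro v hv
    have h1 : ∀ s, ∃ w, v s = (X ^ m - 1) * w := by
      intro s
      exact dvd_of_cf m _ fun i => congrFun hv (s, i)
    choose w hw using h1
    exact ⟨w, funext hw⟩
  zero := by
    intro v
    funext s
    exact cf_q m _ _
  supp := by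
    intro k v hv s hs
    show cf m (v s.1) s.2 = 0
    rw [hv s.1 hs, cf_zero]
  lift := by
    intro k v' hv'
    refine ⟨fun s => ∑ j : ZMod m, Polynomial.C (v' (s, j)) * X ^ j.val, fun s hs => ?_, ?_⟩
    · refine Finset.sum_eq_zero fun j _ => ?_
      rw [hv' (s, j) hs, Polynomial.C_0, zero_mul]
    · funext s
      exact cf_surj m (fun j => v' (s.1, j)) s.2
  q_ne := (monic_q m).ne_zero

end cycm

end Pool.LU
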