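import Pool.Agent.H39.LU.Filt
import Pool.Agent.H39.LU.Idx

/-!
The order of `T / g T` for a monic polynomial `g`.
-/

set_option autoImplicit false

open Polynomial

namespace Pool.LU

variable {T : Type*} [AddCommGroup T] [Module ℤ[X] T]

namespace Filt

variable (Φ : Filt T)

theorem mono : Monotone Φ.F := monotone_nat_of_le_succ fun j => by
  rw [Φ.succ]; exact le_sup_left

theorem X_mem {j : ℕ} {t : T} (h : t ∈ Φ.F j) : (X : ℤ[X]) • t ∈ Φ.F (j + 1) := by
  rw [Φ.succ]
  exact AddSubgroup.mem_sup_right ⟨t, h, rfl⟩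

theorem pow_mem {j : ℕ} (k : ℕ) {t : T} (h : t ∈ Φ.F j) : (X : ℤ[X]) ^ k • t ∈ Φ.F (j + k) := by
  induction k with
  | zero => simpa using h
  | succ k ih =>
    rw [pow_succ', ← smul_smul]
    exact Φ.X_mem ih

theorem int_mem {j : ℕ} (a : ℤ) {t : T} (h : t ∈ Φ.F j) : (C a : ℤ[X]) • t ∈ Φ.F j := by
  have : (C a : ℤ[X]) • t = a • t := by
    rw [show (C a : ℤ[X]) = a • (1 : ℤ[X]) by rw [zsmul_eq_mul, mul_one]; rfl, smul_assoc, one_smul]
  rw [this]
  exact AddSubgroup.zsmul_mem _ h a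

theorem poly_mem {j k : ℕ} (p : ℤ[X]) (hp : p.natDegree ≤ k) {t : T} (h : t ∈ Φ.F j) :
    p • t ∈ Φ.F (j + k) := by
  rw [p.as_sum_range_C_mul_X_pow, Finset.sum_smul]
  refine AddSubgroup.sum_mem _ fun i hi => ?_
  rw [Finset.mem_range] at hi
  rw [mul_smul]
  exact Φ.int_mem _ (Φ.mono (by omega) (Φ.pow_mem i h))

/-- The part of degree less than the leading term. -/
theorem sub_lead_mem {j k : ℕ} (g : ℤ[X]) (hg : g.Monic) (hk : g.natDegree = k + 1) {t : T}
    (h : t ∈ Φ.F j) : g • t - (X : ℤ[X]) ^ (k + 1) • t ∈ Φ.F (j + k) := by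
  rw [← sub_smul]
  refine Φ.poly_mem _ ?_ h
  have h1 : (g - X ^ (k + 1)).degree < g.degree := by
    refine degree_sub_lt_left ?_ hg.ne_zero ?_
    · rw [degree_eq_natDegree hg.ne_zero, hk, degree_X_pow]
    · rw [hg.leadingCoeff, (monic_X_pow _).leadingCoeff]
  by_cases h0 : g - X ^ (k + 1) = 0
  · rw [h0, natDegree_zero]; omega
  have h2 := natDegree_lt_natDegree h0 h1
  omega

theorem pow_inj {j : ℕ} (k : ℕ) {t : T} (h : t ∈ Φ.F (j + 1))
    (h' : (X : ℤ[X]) ^ k • t ∈ Φ.F (j + k)) : k = 0 ∨ t ∈ Φ.F j := by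
  induction k with
  | zero => exact Or.inl rfl
  | succ k ih =>
    right
    have h1 : (X : ℤ[X]) ^ k • t ∈ Φ.F (j + k + 1) := by
      have := Φ.pow_mem k h
      rwa [show j + 1 + k = j + k + 1 by omega] at this
    have h2 : (X : ℤ[X]) ^ k • t ∈ Φ.F (j + k) := by
      apply Φ.inj _ _ h1
      rw [smul_smul, ← pow_succ']
      exact h'
    rcases ih h2 with h3 | h3
    · subst h3
      simpa using h2
    · exact h3

theorem sup_range (g : ℤ[X]) (hg : g.Monic) {k : ℕ} (hk : g.natDegree = k + 1) :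
    Φ.F (k + 1) ⊔ (mp g : T →+ T).range = ⊤ := by
  have h1 : ∀ j, Φ.F (k + 1 + j) ≤ Φ.F (k + 1) ⊔ (mp g : T →+ T).range := by
    intro j
    induction j with
    | zero => exact le_sup_left
    | succ j ih =>
      have e : k + 1 + (j + 1) = (k + 1 + j) + 1 := by omega
      rw [e, Φ.succ]
      refine sup_le ih ?_
      -- `F (k+1+j) = F j + X^(k+1) F j` modulo lower terms
      rintro _ ⟨t, ht, rfl⟩
      have h2 : ∀ i (t : T), t ∈ Φ.F (j + 1 + i) → i ≤ k + 1 → ∃ s ∈ Φ.F (j + 1),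
          t - (X : ℤ[X]) ^ i • s ∈ Φ.F (j + i) := by
        intro i
        induction i with
        | zero =>
          intro t ht _
          refine ⟨t, ht, ?_⟩
          simp
        | succ i ih2 =>
          intro t ht hi
          rw [show j + 1 + (i + 1) = (j + 1 + i) + 1 by omega, Φ.succ] at ht
          obtain ⟨y, hy, z, ⟨w, hw, rfl⟩, hyz⟩ := AddSubgroup.mem_sup.1 ht
          obtain ⟨s, hs, hs'⟩ := ih2 w hw (by omega)
          refine ⟨s, hs, ?_⟩
          rw [← hyz, mp_apply, pow_succ', ← smul_smul]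
          have : y + (X : ℤ[X]) • w - (X : ℤ[X]) • ((X : ℤ[X]) ^ i • s) =
            y + (X : ℤ[X]) • (w - (X : ℤ[X]) ^ i • s) := by rw [smul_sub]; abel
          rw [this]
          refine AddSubgroup.add_mem _ (by rwa [show j + (i + 1) = j + 1 + i by omega]) ?_
          have := Φ.X_mem hs'
          rwa [show j + i + 1 = j + (i + 1) by omega] at this
      have ht1 : (mp X : T →+ T) t ∈ Φ.F (j + 1 + (k + 1)) := by
        have := Φ.X_mem ht
        rw [mp_apply]
        rwa [show k + 1 + j + 1 = j + 1 + (k + 1) by omega] at this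
      obtain ⟨s, hs, hs'⟩ := h2 (k + 1) _ ht1 le_rfl
      have h3 := Φ.sub_lead_mem g hg hk hs
      have h4 : (mp X : T →+ T) t = ((mp X : T →+ T) t - (X : ℤ[X]) ^ (k + 1) • s) -
          (g • s - (X : ℤ[X]) ^ (k + 1) • s) + g • s := by abel
      rw [h4]
      refine AddSubgroup.add_mem _ (AddSubgroup.sub_mem _ (ih ?_) (ih ?_))
        (AddSubgroup.mem_sup_right ⟨s, rfl⟩)
      · rwa [show k + 1 + j = j + (k + 1) by omega]
      · rwa [show k + 1 + j = j + 1 + k by omega]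
  rw [eq_top_iff]
  intro t _
  obtain ⟨j, hj⟩ := Φ.ex t
  exact h1 j (Φ.mono (by omega) hj)

theorem inf_range (g : ℤ[X]) (hg : g.Monic) {k : ℕ} (hk : g.natDegree = k + 1) :
    (mp g : T →+ T).range ⊓ Φ.F (k + 1) = (Φ.F 0).map (mp g) := by
  apply le_antisymm
  · rintro _ ⟨⟨t, rfl⟩, h⟩
    have h1 : ∀ j, t ∈ Φ.F j → t ∈ Φ.F 0 := by
      intro j
      induction j with
      | zero => exact fun h => h
      | succ j ih =>
        intro ht
        apply ih
        have h2 := Φ.sub_lead_mem g hg hk ht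
        have h3 : (X : ℤ[X]) ^ (k + 1) • t ∈ Φ.F (j + (k + 1)) := by
          have h4 : (X : ℤ[X]) ^ (k + 1) • t = g • t - (g • t - (X : ℤ[X]) ^ (k + 1) • t) := by abel
          rw [h4]
          refine AddSubgroup.sub_mem _ (Φ.mono (by omega) h) ?_
          rwa [show j + (k + 1) = j + 1 + k by omega]
        rcases Φ.pow_inj (k + 1) ht h3 with h5 | h5
        · omega
        · exact h5
    obtain ⟨j, hj⟩ := Φ.ex t
    exact ⟨t, h1 j hj, rfl⟩
  · rintro _ ⟨t, ht, rfl⟩
    refine ⟨⟨t, rfl⟩, ?_⟩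
    have := Φ.poly_mem g hk.le ht
    rwa [Nat.zero_add] at this

/-- The index of `g T` is a relative index of finitely generated subgroups. -/
theorem index_range (g : ℤ[X]) (hg : g.Monic) {k : ℕ} (hk : g.natDegree = k + 1) :
    (mp g : T →+ T).range.index = ((Φ.F 0).map (mp g)).relIndex (Φ.F (k + 1)) := by
  rw [← Φ.inf_range g hg hk, AddSubgroup.inf_relIndex_right, ← AddSubgroup.relIndex_sup_left,
    sup_comm, Φ.sup_range g hg hk, AddSubgroup.relIndex_top_right]

theorem rel_zero (k : ℕ) : (Φ.F 0).relIndex (Φ.F k) = Φ.A ^ k := by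
  induction k with
  | zero => rw [pow_zero, AddSubgroup.relIndex_self]
  | succ k ih =>
    rw [← AddSubgroup.relIndex_mul_relIndex _ _ _ (Φ.mono (Nat.zero_le k)) (Φ.mono (Nat.le_succ k)),
      ih, Φ.rel, pow_succ]

end Filt

end Pool.LU
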