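import Pool.Agent.H39.LU.QM

/-!
Project LU, part Y, module TG (second file): the torsion of the quotients `C / (X ^ m - 1)`.
-/

set_option autoImplicit false

open Polynomial Pool.H3.L2

noncomputable section

namespace Pool.LU

section cls

variable {R : Type} [CommRing R] {C : BCx R} {k : ℕ}

theorem cls_eq_zero (z : C.Zk k) :
    (Submodule.Quotient.mk z : C.Hk k) = 0 ↔ (z : C.S → R) ∈ C.Bk k := by
  rw [Submodule.Quotient.mk_eq_zero]
  rfl

theorem le_of_sub (h : Subsingleton (C.Hk k)) : C.Zk k ≤ C.Bk k := fun z hz =>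
  (cls_eq_zero ⟨z, hz⟩).1 (Subsingleton.elim _ _)

/-- the class of a cycle -/
def cls (C : BCx R) (k : ℕ) : ↥(C.Zk k) →+ C.Hk k :=
  (Submodule.mkQ ((C.Bk k).submoduleOf (C.Zk k))).toAddMonoidHom

theorem cls_surj (C : BCx R) (k : ℕ) : Function.Surjective (cls C k) :=
  Submodule.mkQ_surjective _

theorem cls_zero_iff (z : C.Zk k) : cls C k z = 0 ↔ (z : C.S → R) ∈ C.Bk k := cls_eq_zero z

theorem cls_smul (r : R) (z : C.Zk k) : cls C k (r • z) = r • cls C k z := rfl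

end cls

variable {C : BCx ℤ[X]} {q : ℤ[X]} {C' : BCx ℤ}

/-- The class of the image of a cycle. -/
def QM.hk (Q : QM C q C') (k : ℕ) : ↥(C.Zk k) →+ C'.Hk k :=
  (cls C' k).comp ((Q.Φ.comp (C.Zk k).subtype.toAddMonoidHom).codRestrict
    (C'.Zk k).toAddSubgroup fun z => Q.map_Zk z.2)

theorem QM.hk_eq_zero (Q : QM C q C') {k : ℕ} (z : C.Zk k) :
    Q.hk k z = 0 ↔ Q.Φ z ∈ C'.Bk k := cls_zero_iff (C := C') _

theorem QM.ker_hk (Q : QM C q C') (k : ℕ) :
    (Q.hk k).ker = ((mp q : C.Hk k →+ C.Hk k).range).comap (cls C k) := by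
  ext z
  rw [AddMonoidHom.mem_ker, Q.hk_eq_zero, AddSubgroup.mem_comap, AddMonoidHom.mem_range]
  constructor
  · intro h
    obtain ⟨y, hy, hz⟩ := Q.quot z.2 h
    refine ⟨cls C k ⟨y, hy⟩, ?_⟩
    show q • cls C k ⟨y, hy⟩ = cls C k z
    rw [← cls_smul, ← sub_eq_zero, ← map_sub, cls_zero_iff]
    have h1 := Submodule.neg_mem _ hz
    rw [neg_sub] at h1
    exact h1
  · rintro ⟨t, ht⟩
    obtain ⟨y, rfl⟩ := cls_surj C k t
    have h1 : cls C k (z - q • y) = 0 := by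
      rw [map_sub, cls_smul, ← ht]
      exact sub_self _
    rw [cls_zero_iff] at h1
    have h2 := Q.map_Bk h1
    have h3 : Q.Φ ((z - q • y : C.Zk k) : C.S → ℤ[X]) = Q.Φ z := by
      show Q.Φ ((z : C.S → ℤ[X]) - q • (y : C.S → ℤ[X])) = _
      rw [map_sub, Q.zero, sub_zero]
    rwa [h3] at h2

theorem QM.index_eq (Q : QM C q C') (k : ℕ) :
    (mp q : C.Hk k →+ C.Hk k).range.index = Nat.card (Q.hk k).range := by
  rw [← AddSubgroup.index_ker, Q.ker_hk, AddSubgroup.index_comap_of_surjective _ (cls_surj C k)]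

section main

variable (h : ∀ k, k ≠ 2 → Subsingleton ((at0 C).Hk k))

include h

theorem inj0 (k : ℕ) {z : C.S → ℤ[X]} (hz : z ∈ C.Zk k) (hX : (X : ℤ[X]) • z ∈ C.Bk k) :
    z ∈ C.Bk k := by
  by_cases hk : k + 1 = 2
  · have hk1 : k = 1 := by omega
    subst hk1
    have hs : Function.Surjective (LinearMap.lsmul ℤ[X] (C.Hk 1) X) := by
      intro t
      obtain ⟨w, rfl⟩ := cls_surj C 1 t
      obtain ⟨y, hy, hz⟩ := (qm0 C).quot w.2 (le_of_sub (h 1 (by norm_num)) ((qm0 C).map_Zk w.2))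
      refine ⟨cls C 1 ⟨y, hy⟩, ?_⟩
      show (X : ℤ[X]) • cls C 1 ⟨y, hy⟩ = cls C 1 w
      rw [← cls_smul, ← sub_eq_zero, ← map_sub, cls_zero_iff]
      have h1 := Submodule.neg_mem _ hz
      rw [neg_sub] at h1
      exact h1
    have hi := IsNoetherian.injective_of_surjective_endomorphism _ hs
    have h1 : LinearMap.lsmul ℤ[X] (C.Hk 1) X (cls C 1 ⟨z, hz⟩) = 0 := by
      show (X : ℤ[X]) • cls C 1 ⟨z, hz⟩ = 0
      rw [← cls_smul, cls_zero_iff]
      exact hX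
    have h2 := hi (h1.trans (map_zero _).symm)
    exact (cls_zero_iff _).1 h2
  · exact (qm0 C).inj (le_of_sub (h (k + 1) hk)) hX

theorem inj0' (k : ℕ) (t : C.Hk k) (ht : (X : ℤ[X]) • t = 0) : t = 0 := by
  obtain ⟨z, rfl⟩ := cls_surj C k t
  rw [← cls_smul, cls_zero_iff] at ht
  rw [cls_zero_iff]
  exact inj0 h k z.2 ht

theorem index2 : (mp X : C.Hk 2 →+ C.Hk 2).range.index = Nat.card ((at0 C).Hk 2) := by
  rw [(qm0 C).index_eq 2]
  have h1 : ((qm0 C).hk 2).range = ⊤ := by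
    rw [AddMonoidHom.range_eq_top]
    intro t
    obtain ⟨z', rfl⟩ := cls_surj (at0 C) 2 t
    obtain ⟨z, hz, hz'⟩ := (qm0 C).surj (k := 1) (fun z hz hX => inj0 h 1 hz hX) z'.2
    refine ⟨⟨z, hz⟩, ?_⟩
    show cls (at0 C) 2 _ = _
    congr 1
    exact Subtype.ext hz'
  rw [h1]
  exact Nat.card_congr AddSubgroup.topEquiv.toEquiv

theorem index_ne [Finite ((at0 C).Hk 2)] (k : ℕ) :
    (mp X : C.Hk k →+ C.Hk k).range.index ≠ 0 := by
  rw [(qm0 C).index_eq k]
  have : Finite ((at0 C).Hk k) := by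
    by_cases hk : k = 2
    · subst hk; infer_instance
    · have := h k hk
      infer_instance
  exact Nat.card_pos.ne'

end main

/-! ### elements fixed by `X` -/

theorem eval_one_smul {T : Type*} [AddCommGroup T] [Module ℤ[X] T] (t : T)
    (ht : (X - 1 : ℤ[X]) • t = 0) (p : ℤ[X]) : p • t = (p.eval 1) • t := by
  have h1 : (X - Polynomial.C 1 : ℤ[X]) ∣ p - Polynomial.C (p.eval 1) := X_sub_C_dvd_sub_C_eval
  obtain ⟨w, hw⟩ := h1
  have h2 : p • t = (p - Polynomial.C (p.eval 1)) • t + Polynomial.C (p.eval 1) • t := by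
    rw [← add_smul, sub_add_cancel]
  rw [h2, hw, mul_comm, mul_smul, Polynomial.C_1, ht, smul_zero, zero_add]
  rw [show (Polynomial.C (p.eval 1) : ℤ[X]) = ((p.eval 1 : ℤ) : ℤ[X]) from by simp]
  rw [Int.cast_smul_eq_zsmul]

theorem exists_fix_gens (T : Type*) [AddCommGroup T] [Module ℤ[X] T] [Module.Finite ℤ[X] T] :
    ∃ (g : ℕ) (n : Fin g → T), (∀ i, (X - 1 : ℤ[X]) • n i = 0) ∧
      ∀ t : T, (X - 1 : ℤ[X]) • t = 0 → ∃ a : Fin g → ℤ, t = ∑ i, a i • n i := by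
  let N : Submodule ℤ[X] T := LinearMap.ker (LinearMap.lsmul ℤ[X] T (X - 1))
  have hN : ∀ t, t ∈ N ↔ (X - 1 : ℤ[X]) • t = 0 := fun t => Iff.rfl
  have : IsNoetherian ℤ[X] T := isNoetherian_of_isNoetherianRing_of_finite _ _
  have hfg : N.FG := IsNoetherian.noetherian N
  obtain ⟨g, n, hn⟩ := Submodule.fg_iff_exists_fin_generating_family.1 hfg
  have hn1 : ∀ i, n i ∈ N := fun i => by
    rw [← hn]; exact Submodule.subset_span ⟨i, rfl⟩
  refine ⟨g, n, fun i => (hN _).1 (hn1 i), fun t ht => ?_⟩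
  have h1 : t ∈ Submodule.span ℤ[X] (Set.range n) := by
    rw [hn]; exact (hN t).2 ht
  rw [Submodule.mem_span_range_iff_exists_fun] at h1
  obtain ⟨c, rfl⟩ := h1
  refine ⟨fun i => (c i).eval 1, Finset.sum_congr rfl fun i _ => ?_⟩
  exact eval_one_smul _ ((hN _).1 (hn1 i)) _

section tors

variable (m : ℕ) [NeZero m]

/-- The map `z ↦ [(X - 1) z]` to the homology of the quotient. -/
def ft (C : BCx ℤ[X]) : ↥(C.Zk 2) →+ (cyc C m).Hk 2 := ((qmc m C).hk 2).comp (mp (X - 1))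

theorem mem_ker_ft {C : BCx ℤ[X]} (z : C.Zk 2) : z ∈ (ft m C).ker ↔
    (X - 1 : ℤ[X]) • cls C 2 z ∈ (mp (X ^ m - 1) : C.Hk 2 →+ C.Hk 2).range := by
  have h1 : z ∈ (ft m C).ker ↔ (mp (X - 1) : C.Zk 2 →+ C.Zk 2) z ∈ ((qmc m C).hk 2).ker := Iff.rfl
  rw [h1, (qmc m C).ker_hk]
  rfl

theorem le_ker_ft (C : BCx ℤ[X]) :
    ((mp (gp m) : C.Hk 2 →+ C.Hk 2).range).comap (cls C 2) ≤ (ft m C).ker := by
  rintro z ⟨t, ht⟩
  rw [mem_ker_ft]
  refine ⟨t, ?_⟩
  show (X ^ m - 1 : ℤ[X]) • t = _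
  have ht' : gp m • t = cls C 2 z := ht
  rw [← gp_mul, ← ht', mul_comm, mul_smul]

theorem relIndex_le (C : BCx ℤ[X]) (g : ℕ) (n : Fin g → C.Hk 2)
    (hn : ∀ i, (X - 1 : ℤ[X]) • n i = 0)
    (hgen : ∀ t : C.Hk 2, (X - 1 : ℤ[X]) • t = 0 → ∃ a : Fin g → ℤ, t = ∑ i, a i • n i) :
    (((mp (gp m) : C.Hk 2 →+ C.Hk 2).range).comap (cls C 2)).relIndex (ft m C).ker ≤ m ^ g := by
  set G := ((mp (gp m) : C.Hk 2 →+ C.Hk 2).range).comap (cls C 2) with hG
  have hm : (0 : ℤ) < m := by exact_mod_cast Nat.pos_of_ne_zero (NeZero.ne m)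
  have key : ∀ z : (ft m C).ker, ∃ c : Fin g → Fin m,
      cls C 2 z - ∑ i, ((c i : ℕ) : ℤ) • n i ∈ (mp (gp m) : C.Hk 2 →+ C.Hk 2).range := by
    intro z
    obtain ⟨t, ht⟩ := (mem_ker_ft m z.1).1 z.2
    have ht' : (X ^ m - 1 : ℤ[X]) • t = (X - 1 : ℤ[X]) • cls C 2 z := ht
    have h1 : (X - 1 : ℤ[X]) • (cls C 2 z - gp m • t) = 0 := by
      rw [smul_sub, ← mul_smul, mul_comm, gp_mul, ht', sub_self]
    obtain ⟨a, ha⟩ := hgen _ h1
    refine ⟨fun i => ⟨(a i % m).toNat, ?_⟩, ?_⟩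
    · have h2 := Int.emod_lt_of_pos (a i) hm
      have h3 := Int.emod_nonneg (a i) hm.ne'
      omega
    · have h2 : cls C 2 z = gp m • t + ∑ i, a i • n i := by rw [← ha]; abel
      have h3 : ∀ i, (((a i % m).toNat : ℕ) : ℤ) = a i % m := fun i =>
        Int.toNat_of_nonneg (Int.emod_nonneg _ hm.ne')
      have h4 : cls C 2 z - ∑ i, (((a i % m).toNat : ℕ) : ℤ) • n i =
          gp m • (t + ∑ i, (a i / m) • n i) := by
        rw [h2, smul_add, Finset.smul_sum, add_sub_assoc, ← Finset.sum_sub_distrib]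
        congr 1
        refine Finset.sum_congr rfl fun i _ => ?_
        have h5 : (X - 1 : ℤ[X]) • ((a i / m) • n i) = 0 := by
          rw [smul_comm, hn, smul_zero]
        rw [eval_one_smul _ h5, h3, ← sub_smul, smul_smul]
        congr 1
        have h6 : (gp m).eval 1 = (m : ℤ) := by
          rw [gp, eval_finsetSum]
          simp
        rw [h6]
        have h7 := Int.emod_add_mul_ediv (a i) m
        linarith
      exact ⟨_, h4.symm⟩
  choose c hc using key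
  rw [AddSubgroup.relIndex, AddSubgroup.index]
  let F : (↥(ft m C).ker ⧸ G.addSubgroupOf (ft m C).ker) → (Fin g → Fin m) := fun x => c x.out
  have hF : Function.Injective F := by
    intro x y hxy
    have h1 := hc x.out
    have h2 := hc y.out
    have h3 : c x.out = c y.out := hxy
    rw [h3] at h1
    have h4 := AddSubgroup.sub_mem _ h1 h2
    rw [sub_sub_sub_cancel_right] at h4
    have h5 : -(x.out : ↥(ft m C).ker) + y.out ∈ G.addSubgroupOf (ft m C).ker := by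
      rw [AddSubgroup.mem_addSubgroupOf]
      have h6 := AddSubgroup.neg_mem _ h4
      have h7 : -(cls C 2 x.out - cls C 2 y.out) =
          cls C 2 ((-(x.out : ↥(ft m C).ker) + y.out : (ft m C).ker) : C.Zk 2) := by
        push_cast
        rw [map_add, map_neg]
        abel
      rw [h7] at h6
      exact h6
    have h8 : (QuotientAddGroup.mk x.out : ↥(ft m C).ker ⧸ G.addSubgroupOf (ft m C).ker) =
        QuotientAddGroup.mk y.out := QuotientAddGroup.eq.2 h5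
    rwa [QuotientAddGroup.out_eq', QuotientAddGroup.out_eq'] at h8
  refine (Nat.card_le_card_of_injective F hF).trans ?_
  rw [Nat.card_eq_fintype_card, Fintype.card_fun, Fintype.card_fin, Fintype.card_fin]

theorem index_le_torsOrd (C : BCx ℤ[X]) (h0 : (ft m C).ker.index ≠ 0) :
    (ft m C).ker.index ≤ (cyc C m).torsOrd 2 := by
  rw [AddSubgroup.index_ker] at h0 ⊢
  have : Finite (ft m C).range := Nat.finite_of_card_ne_zero h0
  have := BCx.finite_torsion (cyc C m) 2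
  have hmem : ∀ x : (ft m C).range, (x : (cyc C m).Hk 2) ∈
      Submodule.torsion ℤ ((cyc C m).Hk 2) := by
    intro x
    rw [Submodule.mem_torsion_iff]
    have h1 : Nat.card (ft m C).range • x = 0 := card_nsmul_eq_zero'
    have h2 := congrArg Subtype.val h1
    refine ⟨⟨(Nat.card (ft m C).range : ℤ), ?_⟩, ?_⟩
    · rw [mem_nonZeroDivisors_iff_ne_zero]
      exact_mod_cast h0
    · show ((Nat.card (ft m C).range : ℤ)) • (x : (cyc C m).Hk 2) = 0
      rw [natCast_zsmul]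
      exact h2
  exact Nat.card_le_card_of_injective (fun x => (⟨x, hmem x⟩ :
    Submodule.torsion ℤ ((cyc C m).Hk 2))) fun x y hxy => by
      have := congrArg Subtype.val hxy
      exact Subtype.ext this

end tors

theorem tors_growth (C : BCx ℤ[X]) (h : ∀ k, k ≠ 2 → Subsingleton ((at0 C).Hk k))
    [Finite ((at0 C).Hk 2)] : ∃ c : ℝ, 0 < c ∧ ∃ g : ℕ, ∀ B : ℕ, ∃ m : ℕ, B ≤ m ∧
      ∀ _ : NeZero m, c * (Nat.card ((at0 C).Hk 2) : ℝ) ^ m ≤
        (m : ℝ) ^ g * ((cyc C m).torsOrd 2 : ℝ) := by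
  obtain ⟨c, hc, hgr⟩ := growthT (C.Hk 2) (inj0' h 2) (index_ne h 2)
  obtain ⟨g, n, hn, hgen⟩ := exists_fix_gens (C.Hk 2)
  refine ⟨c, hc, g, fun B => ?_⟩
  obtain ⟨m, hm, h0, h1⟩ := hgr B
  refine ⟨m, hm, fun _ => ?_⟩
  rw [index2 h] at h1
  refine h1.trans ?_
  have h2 := AddSubgroup.relIndex_mul_index (le_ker_ft m C)
  rw [AddSubgroup.index_comap_of_surjective _ (cls_surj C 2)] at h2
  have h3 : (ft m C).ker.index ≠ 0 := by
    intro h4
    rw [h4, mul_zero] at h2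
    exact h0 h2.symm
  have h5 := index_le_torsOrd m C h3
  have h6 := relIndex_le m C g n hn hgen
  rw [← h2]
  exact_mod_cast Nat.mul_le_mul h6 h5

end Pool.LU
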