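import Pool.Agent.H39.LU.TGa
import Pool.Agent.H39.LU.Sm

/-!
Project LU, part Y, module TG (third file): the Betti numbers of the quotients `C / (X ^ m - 1)`
are bounded.
-/

set_option autoImplicit false

open Polynomial Pool.H3.L2 Cardinal TensorProduct

noncomputable section

namespace Pool.LU

theorem rank_lt_of_index (T : Type) [AddCommGroup T] [Module ℤ[X] T] [Module.Finite ℤ[X] T]
    (hfin : (mp X : T →+ T).range.index ≠ 0) : Module.rank ℤ T < ℵ₀ := by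
  have h1 := finiteDim_of_index T hfin
  have h2 := (TensorProduct.isBaseChange ℤ T ℚ).rank_eq
  rw [← h2]
  exact Module.rank_lt_aleph0 ℚ _

section ranks

variable {Z H A B : Type} [AddCommGroup Z] [AddCommGroup H] [AddCommGroup A] [AddCommGroup B]

theorem rank_range_le_of_ker (ρ : Z →ₗ[ℤ] H) (σ : Z →ₗ[ℤ] B)
    (h : LinearMap.ker σ ≤ LinearMap.ker ρ) :
    Module.rank ℤ (LinearMap.range ρ) ≤ Module.rank ℤ B := by
  have h1 : LinearMap.range ((LinearMap.ker σ).liftQ ρ h) = LinearMap.range ρ :=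
    Submodule.range_liftQ _ _ _
  rw [← h1]
  refine (rank_range_le _).trans ?_
  rw [σ.quotKerEquivRange.rank_eq]
  exact Submodule.rank_le _

theorem rank_le_add_of {Γ : Type} [AddCommGroup Γ] (p1 : Γ →ₗ[ℤ] H) (p2 : Γ →ₗ[ℤ] A)
    (ρ : Z →ₗ[ℤ] H) (σ : Z →ₗ[ℤ] B) (h : LinearMap.ker σ ≤ LinearMap.ker ρ)
    (h1 : Function.Surjective p1) (h2 : ∀ g, p2 g = 0 → ∃ z, ρ z = p1 g) :
    Module.rank ℤ H ≤ Module.rank ℤ A + Module.rank ℤ B := by
  rw [← rank_quotient_add_rank_of_isDomain (LinearMap.range ρ)]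
  refine add_le_add ?_ (rank_range_le_of_ker ρ σ h)
  have h3 : LinearMap.range ((LinearMap.range ρ).mkQ ∘ₗ p1) = ⊤ := by
    rw [LinearMap.range_eq_top]
    exact (Submodule.mkQ_surjective _).comp h1
  have h4 := rank_range_le_of_ker ((LinearMap.range ρ).mkQ ∘ₗ p1) p2 (by
    intro g hg
    obtain ⟨z, hz⟩ := h2 g hg
    rw [LinearMap.mem_ker, LinearMap.comp_apply, ← LinearMap.mem_ker, Submodule.ker_mkQ]
    exact ⟨z, hz⟩)
  rw [h3, rank_top] at h4
  exact h4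

end ranks

variable {C : BCx ℤ[X]} {q : ℤ[X]} {C' : BCx ℤ}

/-- Chains of degree `k` whose boundary is a multiple of `q`. -/
def QM.Gam (_ : QM C q C') (k : ℕ) : AddSubgroup ((C.S → ℤ[X]) × (C.S → ℤ[X])) where
  carrier := {p | (∀ s, C.deg s ≠ k → p.1 s = 0) ∧ p.2 ∈ C.Zk (k - 1) ∧
    Matrix.vecMul p.1 C.D = q • p.2}
  zero_mem' := ⟨fun _ _ => rfl, Submodule.zero_mem _, by
    rw [Prod.fst_zero, Prod.snd_zero, Matrix.zero_vecMul, smul_zero]⟩
  add_mem' := by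
    rintro a b ⟨ha, ha', ha''⟩ ⟨hb, hb', hb''⟩
    refine ⟨fun s hs => ?_, Submodule.add_mem _ ha' hb', ?_⟩
    · rw [Prod.fst_add, Pi.add_apply, ha s hs, hb s hs, add_zero]
    · rw [Prod.fst_add, Prod.snd_add, Matrix.add_vecMul, ha'', hb'', smul_add]
  neg_mem' := by
    rintro a ⟨ha, ha', ha''⟩
    refine ⟨fun s hs => ?_, Submodule.neg_mem _ ha', ?_⟩
    · rw [Prod.fst_neg, Pi.neg_apply, ha s hs, neg_zero]
    · rw [Prod.fst_neg, Prod.snd_neg, Matrix.neg_vecMul, ha'', smul_neg]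

theorem QM.gam_cyc (Q : QM C q C') {k : ℕ} {p : (C.S → ℤ[X]) × (C.S → ℤ[X])}
    (hp : p ∈ Q.Gam k) : Q.Φ p.1 ∈ C'.Zk k := by
  refine ⟨Q.supp k _ hp.1, ?_⟩
  rw [← Q.bd, hp.2.2, Q.zero]

def QM.p1 (Q : QM C q C') (k : ℕ) : Q.Gam k →+ C'.Hk k :=
  (cls C' k).comp ((Q.Φ.comp ((AddMonoidHom.fst _ _).comp (Q.Gam k).subtype)).codRestrict
    (C'.Zk k).toAddSubgroup fun p => Q.gam_cyc p.2)

def QM.p2 (Q : QM C q C') (k : ℕ) : Q.Gam k →+ C.Hk (k - 1) :=
  (cls C (k - 1)).comp (((AddMonoidHom.snd _ _).comp (Q.Gam k).subtype).codRestrict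
    (C.Zk (k - 1)).toAddSubgroup fun p => p.2.2.1)

theorem QM.rank_le (Q : QM C q C') (k : ℕ) :
    Module.rank ℤ (C'.Hk k) ≤ Module.rank ℤ (C.Hk (k - 1)) + Module.rank ℤ (C.Hk k) := by
  have key := rank_le_add_of (Q.p1 k).toIntLinearMap (Q.p2 k).toIntLinearMap
    (Q.hk k).toIntLinearMap (cls C k).toIntLinearMap ?_ ?_ ?_
  · exact key
  · intro z hz
    have hz1 : cls C k z = 0 := hz
    rw [cls_zero_iff] at hz1
    show Q.hk k z = 0
    rw [Q.hk_eq_zero]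
    exact Q.map_Bk hz1
  · intro t
    obtain ⟨z', rfl⟩ := cls_surj C' k t
    obtain ⟨z, y, hz, hz', hy, hd⟩ := Q.lift_bd z'.2
    refine ⟨⟨(z, y), hz, hy, hd⟩, ?_⟩
    show cls C' k _ = _
    congr 1
    exact Subtype.ext hz'
  · rintro ⟨⟨z, y⟩, hz, hy, hd⟩ h0
    have h1 : cls C (k - 1) ⟨y, hy⟩ = 0 := h0
    rw [cls_zero_iff] at h1
    simp only at hz hy hd h1
    cases k with
    | zero =>
      have h2 : z ∈ C.Zk 0 := ⟨hz, QM.vec_zero hz⟩
      exact ⟨⟨z, h2⟩, rfl⟩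
    | succ k =>
      obtain ⟨w, hw, hd'⟩ := h1
      simp only [Nat.add_sub_cancel] at hw
      have h2 : z - q • w ∈ C.Zk (k + 1) := by
        refine ⟨fun s hs => ?_, ?_⟩
        · rw [Pi.sub_apply, Pi.smul_apply, hz s hs, hw s hs, smul_zero, sub_zero]
        · rw [Matrix.sub_vecMul, hd, Matrix.smul_vecMul, hd', sub_self]
      refine ⟨⟨z - q • w, h2⟩, ?_⟩
      show cls C' (k + 1) _ = cls C' (k + 1) _
      congr 1
      apply Subtype.ext
      show Q.Φ (z - q • w) = Q.Φ z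
      rw [map_sub, Q.zero, sub_zero]

theorem betti_cyc_le (h : ∀ k, k ≠ 2 → Subsingleton ((at0 C).Hk k)) [Finite ((at0 C).Hk 2)]
    (m : ℕ) [NeZero m] (k : ℕ) :
    (cyc C m).betti ℝ k ≤ Module.finrank ℤ (C.Hk (k - 1)) + Module.finrank ℤ (C.Hk k) := by
  rw [← Sm.finrank_Hk]
  have h1 := (qmc m C).rank_le k
  have h2 := rank_lt_of_index (C.Hk (k - 1)) (index_ne h (k - 1))
  have h3 := rank_lt_of_index (C.Hk k) (index_ne h k)
  have h4 := Cardinal.toNat_le_toNat h1 (Cardinal.add_lt_aleph0 h2 h3)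
  rw [Cardinal.toNat_add h2 h3] at h4
  exact h4

theorem betti_cyc_zero (m : ℕ) [NeZero m] (k : ℕ) (hk : Finset.univ.sup C.deg < k) :
    (cyc C m).betti ℝ k = 0 := by
  rw [← Sm.finrank_Hk]
  have h1 : Subsingleton ((cyc C m).Hk k) := by
    refine ⟨fun a b => ?_⟩
    obtain ⟨a, rfl⟩ := cls_surj (cyc C m) k a
    obtain ⟨b, rfl⟩ := cls_surj (cyc C m) k b
    congr 1
    apply Subtype.ext
    funext s
    have hs : (cyc C m).deg s ≠ k := by
      have h2 : C.deg s.1 ≤ Finset.univ.sup C.deg := Finset.le_sup (Finset.mem_univ _)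
      have h3 : (cyc C m).deg s = C.deg s.1 := rfl
      omega
    rw [a.2.1 s hs, b.2.1 s hs]
  exact Module.finrank_zero_of_subsingleton

theorem betti_bdd (h : ∀ k, k ≠ 2 → Subsingleton ((at0 C).Hk k)) [Finite ((at0 C).Hk 2)] :
    ∃ B : ℕ, ∀ (m : ℕ) [NeZero m] (k : ℕ), (cyc C m).betti ℝ k ≤ B := by
  set K := Finset.univ.sup C.deg with hK
  set S := ∑ k ∈ Finset.range (K + 1), Module.finrank ℤ (C.Hk k) with hS
  have h0 : ∀ k, k ≤ K → Module.finrank ℤ (C.Hk k) ≤ S := fun k hk =>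
    Finset.single_le_sum (f := fun k => Module.finrank ℤ (C.Hk k)) (fun _ _ => Nat.zero_le _)
      (Finset.mem_range.2 (by omega))
  refine ⟨S + S, fun m _ k => ?_⟩
  by_cases hk : k ≤ K
  · exact (betti_cyc_le h m k).trans (add_le_add (h0 _ (by omega)) (h0 _ hk))
  · rw [betti_cyc_zero m k (by omega)]
    exact Nat.zero_le _

end Pool.LU
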